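import Pool.Agent.N882.SP.Defs

/-!
# The values on the edge of the L-functions of motives: definitions

`Motive` is defined in `Pool/Agent/N882/SP/Defs.lean`: the cohomology `H = H^w(M)` of a Chow motive
over `ℚ` in one degree, as far as the Frobenius eigenvalues at almost all primes are concerned.
-/

set_option autoImplicit false

namespace Pool.Agent.N60.EV

open Complex MeasureTheory Filter Topology
open Pool.Agent.N882.SP (Motive)

/-- All primes outside `S` are good for `H`: the Frobenius eigenvalues have absolute value `p^{w/2}`,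
and their number is the rank of `H`.  (This holds for a finite set `S`, the set of bad primes, and
then for all larger sets of primes, finite or infinite.) -/
def Pure (H : Motive) (S : Set Nat.Primes) : Prop :=
  ∀ p : Nat.Primes, p ∉ S → (∀ z ∈ H.frob p, ‖z‖ = (p : ℝ) ^ ((H.weight : ℝ) / 2)) ∧
    Multiset.card (H.frob p) = H.rank

open Classical in
/-- `L_S(H, s)`: the Euler product `∏_p ∏_α (1 - α p^{-s})⁻¹` over the primes `p` outside `S`, where `α`
runs through the eigenvalues of Frobenius at `p` on `H`. -/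
noncomputable def LS (H : Motive) (S : Set Nat.Primes) (s : ℂ) : ℂ :=
  ∏' p : Nat.Primes, if p ∈ S then 1 else
    ((H.frob p).map fun α => (1 - α * ((p : ℕ) : ℂ) ^ (-s))⁻¹).prod

open Classical in
/-- `log L_S(H, s)`: the sum of `-log (1 - α p^{-s})` over the primes `p` outside `S` and the
eigenvalues `α` of Frobenius at `p`, with the principal value of the logarithm. -/
noncomputable def logLS (H : Motive) (S : Set Nat.Primes) (s : ℂ) : ℂ :=
  ∑' p : Nat.Primes, if p ∈ S then 0 else
    ((H.frob p).map fun α => -Complex.log (1 - α * ((p : ℕ) : ℂ) ^ (-s))).sum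

open Classical in
/-- The normalised trace of Frobenius `p^{-w/2} Tr(Frob_p | H)` at a prime `p` outside `S`, and `0` for
`p ∈ S`. -/
noncomputable def ntr (H : Motive) (S : Set Nat.Primes) (p : Nat.Primes) : ℂ :=
  if p ∈ S then 0 else (H.frob p).sum / (((p : ℝ) ^ ((H.weight : ℝ) / 2) : ℝ) : ℂ)

/-- The point `w/2 + 1 + iτ` of the edge of the half-plane of absolute convergence. -/
noncomputable def edge (H : Motive) (τ : ℝ) : ℂ :=
  (((H.weight : ℝ) / 2 + 1 : ℝ) : ℂ) + (τ : ℂ) * I

/-- The angle `|s - s_τ| ≤ C (Re s - (w/2 + 1))` at `s_τ = w/2 + 1 + iτ` in the half-plane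
`Re s > w/2 + 1`. -/
def ang (H : Motive) (τ C : ℝ) : Set ℂ :=
  {s : ℂ | (H.weight : ℝ) / 2 + 1 < s.re ∧ ‖s - edge H τ‖ ≤ C * (s.re - ((H.weight : ℝ) / 2 + 1))}

/-- The function `l` is the boundary function of `log L_S(H, s)` on the edge: outside a set of real
numbers `τ` of Hausdorff dimension `0`, `log L_S(H, s)` tends to `l(τ)` (and so `L_S(H, s)` tends to
`exp l(τ)`) as `s` tends to `w/2 + 1 + iτ` in any angle in the half-plane `Re s > w/2 + 1`. -/
def IsBoundary (H : Motive) (S : Set Nat.Primes) (l : ℝ → ℂ) : Prop :=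
  ∃ Z : Set ℝ, dimH Z = 0 ∧ ∀ τ : ℝ, τ ∉ Z → ∀ C : ℝ,
    Tendsto (logLS H S) (𝓝[ang H τ C] (edge H τ)) (𝓝 (l τ))

/-- The values of `(l_1, …, l_m)` are dense in `ℂᵐ`, in a strong sense: for every point `z` of `ℂᵐ` and
`δ > 0` there are a length `T` and a number `c > 0` such that in every interval `[a, a + T]` the set of
the points `τ` with `|l_r(τ) - z_r| < δ` for all `r` has measure at least `c`. -/
def ValuesDense {m : ℕ} (l : Fin m → ℝ → ℂ) : Prop :=
  ∀ (z : Fin m → ℂ) (δ : ℝ), 0 < δ → ∃ T : ℝ, 0 < T ∧ ∃ c : ℝ, 0 < c ∧ ∀ a : ℝ,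
    ENNReal.ofReal c ≤ volume {τ : ℝ | (a ≤ τ ∧ τ ≤ a + T) ∧ ∀ r, ‖l r τ - z r‖ < δ}

end Pool.Agent.N60.EV
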