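import Mathlib

/-!
# Steering vectors with unimodular coefficients
-/

set_option autoImplicit false

namespace Pool.Agent.N60.EV

open Complex Finset Filter Topology

variable {ι : Type*} {m : ℕ}

lemma support_big [DecidableEq ι] (x : ι → Fin m → ℂ)
    (h : ∀ c : Fin m → ℂ, c ≠ 0 → ¬ Summable fun p => ‖∑ r, c r * x p r‖) (F0 : Finset ι) (R : ℝ) :
    ∃ F : Finset ι, Disjoint F F0 ∧ ∀ c : Fin m → ℂ, R * ‖c‖ ≤ ∑ p ∈ F, ‖∑ r, c r * x p r‖ := by
  set U : {F : Finset ι // Disjoint F F0} → Set (Fin m → ℂ) := fun F =>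
    {c | R < ∑ p ∈ F.1, ‖∑ r, c r * x p r‖} with hU
  have hUo : ∀ F, IsOpen (U F) := by
    intro F
    refine isOpen_lt continuous_const ?_
    fun_prop
  have hne : Nonempty {F : Finset ι // Disjoint F F0} := ⟨⟨∅, Finset.disjoint_empty_left _⟩⟩
  have hcov : Metric.sphere (0 : Fin m → ℂ) 1 ⊆ ⋃ F, U F := by
    intro c hc
    have hc0 : c ≠ 0 := by
      rintro rfl
      simp at hc
    by_contra hcon
    apply h c hc0
    have h1 : ∀ F : Finset ι, Disjoint F F0 → ∑ p ∈ F, ‖∑ r, c r * x p r‖ ≤ R := by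
      intro F hF
      by_contra h2
      rw [not_le] at h2
      exact hcon (Set.mem_iUnion.2 ⟨⟨F, hF⟩, h2⟩)
    refine summable_of_sum_le (c := R + ∑ p ∈ F0, ‖∑ r, c r * x p r‖)
      (fun p => norm_nonneg _) fun F => ?_
    have h2 : ∑ p ∈ F, ‖∑ r, c r * x p r‖ ≤ ∑ p ∈ (F \ F0) ∪ F0, ‖∑ r, c r * x p r‖ := by
      refine Finset.sum_le_sum_of_subset_of_nonneg ?_ fun _ _ _ => norm_nonneg _
      intro p hp
      by_cases hp0 : p ∈ F0
      · exact Finset.mem_union_right _ hp0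
      · exact Finset.mem_union_left _ (Finset.mem_sdiff.2 ⟨hp, hp0⟩)
    rw [Finset.sum_union Finset.sdiff_disjoint] at h2
    have h3 := h1 _ (Finset.sdiff_disjoint (s := F0) (t := F))
    linarith
  have hdir : Directed (· ⊆ ·) U := by
    intro F G
    refine ⟨⟨F.1 ∪ G.1, Finset.disjoint_union_left.2 ⟨F.2, G.2⟩⟩, ?_, ?_⟩
    · intro c hc
      exact lt_of_lt_of_le hc (Finset.sum_le_sum_of_subset_of_nonneg Finset.subset_union_left
        fun _ _ _ => norm_nonneg _)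
    · intro c hc
      exact lt_of_lt_of_le hc (Finset.sum_le_sum_of_subset_of_nonneg Finset.subset_union_right
        fun _ _ _ => norm_nonneg _)
  obtain ⟨F, hF⟩ := (isCompact_sphere (0 : Fin m → ℂ) 1).elim_directed_cover U hUo hcov hdir
  refine ⟨F.1, F.2, fun c => ?_⟩
  by_cases hc0 : c = 0
  · rw [hc0, norm_zero, mul_zero]
    exact Finset.sum_nonneg fun _ _ => norm_nonneg _
  · have hn : 0 < ‖c‖ := norm_pos_iff.2 hc0
    have h1 : ((‖c‖ : ℂ)⁻¹ • c) ∈ Metric.sphere (0 : Fin m → ℂ) 1 := by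
      rw [mem_sphere_zero_iff_norm, norm_smul, norm_inv, Complex.norm_real, norm_norm,
        inv_mul_cancel₀ hn.ne']
    have h2 : R < ∑ p ∈ F.1, ‖∑ r, ((‖c‖ : ℂ)⁻¹ • c) r * x p r‖ := hF h1
    have h3 : ∀ p, ‖∑ r, ((‖c‖ : ℂ)⁻¹ • c) r * x p r‖ = ‖c‖⁻¹ * ‖∑ r, c r * x p r‖ := by
      intro p
      have h4 : ∑ r, ((‖c‖ : ℂ)⁻¹ • c) r * x p r = (‖c‖ : ℂ)⁻¹ * ∑ r, c r * x p r := by
        rw [Finset.mul_sum]
        exact Finset.sum_congr rfl fun r _ => by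
          rw [Pi.smul_apply, smul_eq_mul]
          ring
      rw [h4, norm_mul, norm_inv, Complex.norm_real, norm_norm]
    simp only [h3] at h2
    rw [← Finset.mul_sum, ← div_eq_inv_mul, lt_div_iff₀ hn] at h2
    exact h2.le

lemma hull [DecidableEq ι] (F : Finset ι) (x : ι → Fin m → ℂ) (z : Fin m → ℂ)
    (h : ∀ c : Fin m → ℂ, (∑ r, c r * z r).re ≤ ∑ p ∈ F, ‖∑ r, c r * x p r‖) :
    ∃ t : ι → ℂ, (∀ p, ‖t p‖ ≤ 1) ∧ ∀ r, z r = ∑ p ∈ F, t p * x p r := by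
  classical
  set L : (F → ℂ) → (Fin m → ℂ) := fun t r => ∑ p : F, t p * x p.1 r with hL
  have hLc : Continuous L := by
    simp only [hL]
    fun_prop
  set Z : Set (Fin m → ℂ) := L '' Metric.closedBall 0 1 with hZ
  have hcomp : IsCompact Z := (isCompact_closedBall _ _).image hLc
  have hconv : Convex ℝ Z := by
    rw [hZ]
    have hlin : IsLinearMap ℝ L := by
      constructor
      · intro s t
        funext r
        simp only [hL, Pi.add_apply, add_mul, Finset.sum_add_distrib]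
      · intro a t
        funext r
        simp only [hL, Pi.smul_apply, Finset.smul_sum, smul_mul_assoc]
    exact (convex_closedBall _ _).is_linear_image hlin
  by_cases hz : z ∈ Z
  · obtain ⟨t, ht, htz⟩ := hz
    refine ⟨fun p => if hp : p ∈ F then t ⟨p, hp⟩ else 0, fun p => ?_, fun r => ?_⟩
    · by_cases hp : p ∈ F
      · simp only [dif_pos hp]
        exact (norm_le_pi_norm t _).trans (mem_closedBall_zero_iff.1 ht)
      · simp only [dif_neg hp, norm_zero]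
        exact zero_le_one
    · rw [← htz]
      simp only [hL]
      rw [← Finset.sum_coe_sort F]
      refine Finset.sum_congr rfl fun p _ => ?_
      rw [dif_pos p.2]
  · exfalso
    obtain ⟨f, u, h1, h2⟩ := RCLike.geometric_hahn_banach_closed_point (𝕜 := ℂ) hconv
      hcomp.isClosed hz
    set c : Fin m → ℂ := fun r => f (Pi.single r 1) with hc
    have hf : ∀ v : Fin m → ℂ, f v = ∑ r, c r * v r := by
      intro v
      have h3 : v = ∑ r, v r • (Pi.single r (1 : ℂ) : Fin m → ℂ) := by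
        funext i
        rw [Finset.sum_apply]
        simp [Pi.single_apply]
      conv_lhs => rw [h3]
      rw [map_sum]
      refine Finset.sum_congr rfl fun r _ => ?_
      rw [map_smul, smul_eq_mul]
      simp only [hc]
      ring
    -- the maximising coefficients
    have hex : ∀ p : F, ∃ s : ℂ, ‖s‖ ≤ 1 ∧ s * ∑ r, c r * x p.1 r =
        ((‖∑ r, c r * x p.1 r‖ : ℝ) : ℂ) := by
      intro p
      set w : ℂ := ∑ r, c r * x p.1 r with hw
      by_cases hw0 : w = 0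
      · exact ⟨0, by simp, by rw [hw0]; simp⟩
      · refine ⟨(‖w‖ : ℂ) / w, ?_, ?_⟩
        · rw [norm_div, Complex.norm_real, norm_norm, div_self (norm_ne_zero_iff.2 hw0)]
        · rw [div_mul_cancel₀ _ hw0]
    choose s hs1 hs2 using hex
    have hmem : L s ∈ Z := by
      refine ⟨s, ?_, rfl⟩
      rw [mem_closedBall_zero_iff, pi_norm_le_iff_of_nonneg zero_le_one]
      exact hs1
    have h3 := h1 _ hmem
    have h4 : f (L s) = ((∑ p ∈ F, ‖∑ r, c r * x p r‖ : ℝ) : ℂ) := by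
      rw [hf]
      simp only [hL]
      push_cast
      rw [← Finset.sum_coe_sort F]
      simp only [Finset.mul_sum]
      rw [Finset.sum_comm]
      refine Finset.sum_congr rfl fun p _ => ?_
      rw [← hs2 p, Finset.mul_sum]
      exact Finset.sum_congr rfl fun r _ => by ring
    have h5 := h c
    rw [← hf] at h5
    rw [h4] at h3
    simp only [RCLike.re_to_complex, Complex.ofReal_re] at h2 h3
    linarith

lemma exists_chord (t : ℂ) (ht : ‖t‖ ≤ 1) : ∃ d : ℂ, ‖t + d‖ = 1 ∧ ‖t - d‖ = 1 ∧ ‖d‖ ≤ 1 := by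
  by_cases h0 : t = 0
  · exact ⟨1, by rw [h0]; simp, by rw [h0]; simp, by simp⟩
  · have hn : 0 < ‖t‖ := norm_pos_iff.2 h0
    have h1 : 0 ≤ 1 - ‖t‖ ^ 2 := by nlinarith
    set s : ℝ := Real.sqrt (1 - ‖t‖ ^ 2) / ‖t‖ with hs
    have hs2 : s ^ 2 = (1 - ‖t‖ ^ 2) / ‖t‖ ^ 2 := by
      rw [hs, div_pow, Real.sq_sqrt h1]
    have key : ∀ e : ℝ, e ^ 2 = 1 → ‖t + ((e * s : ℝ) : ℂ) * I * t‖ = 1 := by
      intro e he
      have h2 : t + ((e * s : ℝ) : ℂ) * I * t = t * (1 + ((e * s : ℝ) : ℂ) * I) := by ring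
      have h3 : ‖(1 : ℂ) + ((e * s : ℝ) : ℂ) * I‖ ^ 2 = 1 + s ^ 2 := by
        rw [← Complex.normSq_eq_norm_sq, Complex.normSq_apply]
        simp
        nlinarith
      have h4 : (‖t‖ * ‖(1 : ℂ) + ((e * s : ℝ) : ℂ) * I‖) ^ 2 = 1 := by
        rw [mul_pow, h3, hs2]
        field_simp
        ring
      rw [h2, norm_mul]
      have h5 : 0 ≤ ‖t‖ * ‖(1 : ℂ) + ((e * s : ℝ) : ℂ) * I‖ := by positivity
      nlinarith [sq_nonneg (‖t‖ * ‖(1 : ℂ) + ((e * s : ℝ) : ℂ) * I‖ - 1)]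
    refine ⟨((s : ℝ) : ℂ) * I * t, ?_, ?_, ?_⟩
    · have := key 1 (by norm_num)
      rwa [one_mul] at this
    · have := key (-1) (by norm_num)
      rw [show t - ((s : ℝ) : ℂ) * I * t = t + (((-1) * s : ℝ) : ℂ) * I * t by push_cast; ring]
      exact this
    · have h6 : ‖((s : ℝ) : ℂ) * I * t‖ ^ 2 = 1 - ‖t‖ ^ 2 := by
        rw [norm_mul, norm_mul, Complex.norm_I, mul_one, Complex.norm_real, mul_pow,
          Real.norm_eq_abs, sq_abs, hs2]
        field_simp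
      have h7 : ‖((s : ℝ) : ℂ) * I * t‖ ^ 2 ≤ 1 := by
        rw [h6]
        nlinarith [sq_nonneg ‖t‖]
      have h8 := norm_nonneg (((s : ℝ) : ℂ) * I * t)
      nlinarith

lemma round_one (v x : Fin m → ℂ) (t : ℂ) (ht : ‖t‖ ≤ 1) : ∃ ξ : ℂ, ‖ξ‖ = 1 ∧
    ∑ r, ‖v r + (ξ - t) * x r‖ ^ 2 ≤ ∑ r, ‖v r‖ ^ 2 + ∑ r, ‖x r‖ ^ 2 := by
  obtain ⟨d, h1, h2, h3⟩ := exists_chord t ht
  have hpar : ∀ r, ‖v r + d * x r‖ ^ 2 + ‖v r - d * x r‖ ^ 2 =
      2 * ‖v r‖ ^ 2 + 2 * (‖d‖ ^ 2 * ‖x r‖ ^ 2) := by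
    intro r
    have := parallelogram_law_with_norm ℝ (v r) (d * x r)
    rw [norm_mul] at this
    nlinarith
  have hsum : ∑ r, ‖v r + d * x r‖ ^ 2 + ∑ r, ‖v r - d * x r‖ ^ 2 =
      2 * ∑ r, ‖v r‖ ^ 2 + 2 * (‖d‖ ^ 2 * ∑ r, ‖x r‖ ^ 2) := by
    rw [← Finset.sum_add_distrib, Finset.sum_congr rfl fun r _ => hpar r, Finset.sum_add_distrib,
      ← Finset.mul_sum, ← Finset.mul_sum, ← Finset.mul_sum]
  have hx : 0 ≤ ∑ r, ‖x r‖ ^ 2 := Finset.sum_nonneg fun _ _ => by positivity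
  have hd2 : ‖d‖ ^ 2 * ∑ r, ‖x r‖ ^ 2 ≤ ∑ r, ‖x r‖ ^ 2 :=
    mul_le_of_le_one_left hx (pow_le_one₀ (norm_nonneg _) h3)
  by_cases hle : ∑ r, ‖v r + d * x r‖ ^ 2 ≤ ∑ r, ‖v r‖ ^ 2 + ∑ r, ‖x r‖ ^ 2
  · refine ⟨t + d, h1, ?_⟩
    simpa only [add_sub_cancel_left] using hle
  · refine ⟨t - d, h2, ?_⟩
    have : ∀ r, v r + (t - d - t) * x r = v r - d * x r := fun r => by ring
    simp only [this]
    rw [not_le] at hle
    linarith

lemma round_all [DecidableEq ι] (F : Finset ι) (x : ι → Fin m → ℂ) (t : ι → ℂ)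
    (ht : ∀ p, ‖t p‖ ≤ 1) : ∃ ξ : ι → ℂ, (∀ p, ‖ξ p‖ = 1) ∧
      ∑ r, ‖∑ p ∈ F, (ξ p - t p) * x p r‖ ^ 2 ≤ ∑ p ∈ F, ∑ r, ‖x p r‖ ^ 2 := by
  induction F using Finset.induction_on with
  | empty => exact ⟨fun _ => 1, fun _ => norm_one, by simp⟩
  | insert a s ha ih =>
    obtain ⟨ξ, h1, h2⟩ := ih
    obtain ⟨z, h3, h4⟩ := round_one (fun r => ∑ p ∈ s, (ξ p - t p) * x p r) (x a) (t a) (ht a)
    refine ⟨Function.update ξ a z, fun p => ?_, ?_⟩
    · by_cases hp : p = a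
      · rw [hp, Function.update_self]
        exact h3
      · rw [Function.update_of_ne hp]
        exact h1 p
    · have h5 : ∀ r, ∑ p ∈ insert a s, (Function.update ξ a z p - t p) * x p r =
          (∑ p ∈ s, (ξ p - t p) * x p r) + (z - t a) * x a r := by
        intro r
        rw [Finset.sum_insert ha, Function.update_self, add_comm]
        congr 1
        refine Finset.sum_congr rfl fun p hp => ?_
        rw [Function.update_of_ne (show p ≠ a from fun h => ha (h ▸ hp))]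
      simp only [h5]
      rw [Finset.sum_insert ha]
      linarith

/-- **Steering.** -/
theorem steer [DecidableEq ι] (x : ι → Fin m → ℂ)
    (h : ∀ c : Fin m → ℂ, c ≠ 0 → ¬ Summable fun p => ‖∑ r, c r * x p r‖) (F0 : Finset ι)
    {δ : ℝ} (hδ : 0 ≤ δ)
    (hF0 : ∀ F : Finset ι, Disjoint F F0 → ∑ p ∈ F, ∑ r, ‖x p r‖ ^ 2 ≤ δ ^ 2) (z : Fin m → ℂ) :
    ∃ F : Finset ι, Disjoint F F0 ∧ ∃ ξ : ι → ℂ, (∀ p, ‖ξ p‖ = 1) ∧
      ∀ r, ‖∑ p ∈ F, ξ p * x p r - z r‖ ≤ δ := by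
  obtain ⟨F, hF, h1⟩ := support_big x h F0 (∑ r, ‖z r‖)
  obtain ⟨t, ht, h2⟩ := hull F x z fun c => by
    refine le_trans ?_ (h1 c)
    refine (Complex.re_le_norm _).trans ((norm_sum_le _ _).trans ?_)
    rw [Finset.sum_mul]
    refine Finset.sum_le_sum fun r _ => ?_
    rw [norm_mul, mul_comm]
    exact mul_le_mul_of_nonneg_left (norm_le_pi_norm c r) (norm_nonneg _)
  obtain ⟨ξ, h3, h4⟩ := round_all F x t ht
  refine ⟨F, hF, ξ, h3, fun r => ?_⟩
  have h5 : ∑ p ∈ F, ξ p * x p r - z r = ∑ p ∈ F, (ξ p - t p) * x p r := by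
    rw [h2 r, ← Finset.sum_sub_distrib]
    exact Finset.sum_congr rfl fun p _ => by ring
  rw [h5]
  have h6 : ‖∑ p ∈ F, (ξ p - t p) * x p r‖ ^ 2 ≤ δ ^ 2 := by
    refine le_trans ?_ (h4.trans (hF0 F hF))
    exact Finset.single_le_sum (f := fun r => ‖∑ p ∈ F, (ξ p - t p) * x p r‖ ^ 2)
      (fun _ _ => by positivity) (Finset.mem_univ r)
  exact abs_le_of_sq_le_sq' h6 hδ |>.2

end Pool.Agent.N60.EV
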