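import Pool.Agent.N60.EV.Win
import Pool.Agent.N60.EV.Steer
import Pool.Agent.N60.EH.Main

/-!
# Denseness of the values on the edge
-/

set_option autoImplicit false

namespace Pool.Agent.N60.EV

open Complex MeasureTheory Finset Filter Topology Metric
open Pool.Agent.TH339.MP
open Pool.Agent.W350.Edge (divSet dimH_divSet)
open Pool.Agent.N60.EH (GG Ph GG_eq Ph_diff summable_GG GG_lip exists_phase norm_cpow_eq)

lemma sq_wt_le (x : PP) : wt 1 x ^ 2 ≤ wt 1 (sh x) := by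
  unfold wt sh
  simp only
  rw [← pow_mul]
  refine pow_le_pow_of_le_one (Real.rpow_nonneg (prime_pos x.1).le _) ?_ (by omega)
  exact (rpow_neg_le_half x.1 le_rfl).trans (by norm_num)

/-- the tails at the primes outside a finite set -/
lemma tails {ε : ℝ} (hε : 0 < ε) : ∃ F0 : Finset Nat.Primes, ∀ A : Finset PP,
    (∀ x ∈ A, x.1 ∉ F0) → ∑ x ∈ A, wt 1 (sh x) ≤ ε := by
  classical
  have h1 := wt_sh_summable
  obtain ⟨s, hs⟩ := (summable_iff_vanishing_norm.1 h1) ε hε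
  refine ⟨s.image Prod.fst, fun A hA => ?_⟩
  have h2 := hs A (Finset.disjoint_left.2 fun x hx hxs =>
    hA x hx (Finset.mem_image_of_mem _ hxs))
  exact (le_abs_self _).trans h2.le

lemma GG_off (P : Finset Nat.Primes) (b : PP → ℂ) (p : Nat.Primes) (s : ℂ) [Decidable (p ∈ P)] :
    GG (off P b) p s = if p ∈ P then 0 else GG b p s := by
  unfold GG
  split_ifs with h
  · have : ∀ k : ℕ, tm (off P b) s (p, k) = 0 := by
      intro k
      unfold tm off
      rw [if_pos h, zero_mul]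
    simp only [this, tsum_zero]
  · refine tsum_congr fun k => ?_
    unfold tm off
    rw [if_neg h]

variable {b : PP → ℂ} {M : ℝ}

lemma FF_off (hb : ∀ x, ‖b x‖ ≤ M / (x.2 + 1 : ℕ)) (P : Finset Nat.Primes) {s : ℂ}
    (hs : 1 < s.re) : FF b s = ∑ p ∈ P, GG b p s + FF (off P b) s := by
  classical
  have h1 := summable_tm hb hs
  have h2 := summable_tm (norm_off hb P) hs
  have e1 : FF b s = ∑' p, GG b p s := h1.tsum_prod
  have e2 : FF (off P b) s = ∑' p, GG (off P b) p s := h2.tsum_prod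
  have s1 : Summable fun p => GG b p s := h1.prod
  have s2 : Summable fun p => GG (off P b) p s := h2.prod
  rw [e1, e2]
  have h3 : ∑ p ∈ P, GG b p s = ∑' p, if p ∈ P then GG b p s else 0 := by
    rw [tsum_eq_sum (s := P) fun p hp => if_neg hp]
    exact Finset.sum_congr rfl fun p hp => (if_pos hp).symm
  have s3 : Summable fun p => if p ∈ P then GG b p s else 0 :=
    summable_of_ne_finset_zero (s := P) fun p hp => if_neg hp
  rw [h3, ← s3.tsum_add s2]
  refine tsum_congr fun p => ?_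
  rw [GG_off]
  split_ifs <;> simp

lemma GG_continuousAt (hb : ∀ x, ‖b x‖ ≤ M / (x.2 + 1 : ℕ)) (p : Nat.Primes) {s : ℂ}
    (hs : 1 ≤ s.re) : ContinuousAt (GG b p) s := by
  have h1 : ((p : ℕ) : ℂ) ^ (-s) ∈ ball (0 : ℂ) (3 / 4) := by
    rw [mem_ball_zero_iff, norm_cpow_eq]
    exact (rpow_neg_le_half p hs).trans_lt (by norm_num)
  have h2 : ContinuousAt (Ph b p) (((p : ℕ) : ℂ) ^ (-s)) :=
    ((Ph_diff hb p).differentiableAt (isOpen_ball.mem_nhds h1)).continuousAt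
  have hp : (((p : ℕ) : ℕ) : ℂ) ≠ 0 := by exact_mod_cast p.2.ne_zero
  have h3 : ContinuousAt (fun s : ℂ => ((p : ℕ) : ℂ) ^ (-s)) s :=
    (continuousAt_const_cpow hp).comp continuous_neg.continuousAt
  exact ContinuousAt.comp (g := Ph b p) (f := fun s : ℂ => ((p : ℕ) : ℂ) ^ (-s)) h2 h3

lemma bl_off (hb : ∀ x, ‖b x‖ ≤ M / (x.2 + 1 : ℕ)) (P : Finset Nat.Primes) {τ : ℝ}
    (h1 : τ ∉ divSet (ap b)) (h2 : τ ∉ divSet (ap (off P b))) :
    bl b τ = ∑ p ∈ P, GG b p (((1 : ℝ) : ℂ) + τ * I) + bl (off P b) τ := by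
  refine tendsto_nhds_unique (radial hb h1) ?_
  have h3 : Tendsto (fun n : ℕ => (((1 + 1 / ((n : ℝ) + 1) : ℝ) : ℂ) + τ * I)) atTop
      (𝓝 (((1 : ℝ) : ℂ) + τ * I)) := by
    have h4 : Tendsto (fun n : ℕ => (1 + 1 / ((n : ℝ) + 1))) atTop (𝓝 ((1 : ℝ) + 0)) :=
      tendsto_one_div_add_atTop_nhds_zero_nat.const_add 1
    rw [add_zero] at h4
    exact ((Complex.continuous_ofReal.tendsto 1).comp h4).add_const _
  have h4 : Tendsto (fun n : ℕ => ∑ p ∈ P, GG b p (((1 + 1 / ((n : ℝ) + 1) : ℝ) : ℂ) + τ * I) +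
      FF (off P b) (((1 + 1 / ((n : ℝ) + 1) : ℝ) : ℂ) + τ * I)) atTop
      (𝓝 (∑ p ∈ P, GG b p (((1 : ℝ) : ℂ) + τ * I) + bl (off P b) τ)) := by
    refine Tendsto.add (tendsto_finsetSum _ fun p _ => ?_) (radial (norm_off hb P) h2)
    exact (GG_continuousAt hb p (by simp)).tendsto.comp h3
  refine h4.congr fun n => ?_
  refine (FF_off hb P ?_).symm
  have h5 : (0 : ℝ) < 1 / ((n : ℝ) + 1) := by positivity
  simp only [Complex.add_re, Complex.ofReal_re, Complex.mul_re, Complex.I_re, Complex.ofReal_im,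
    Complex.I_im, mul_zero, mul_one, sub_zero, add_zero]
  linarith

lemma wt_one_zero (p : Nat.Primes) : wt 1 (p, 0) = ((p : ℕ) : ℝ)⁻¹ := by
  unfold wt
  simp [Real.rpow_neg_one]

section
variable {m : ℕ} {b : Fin m → PP → ℂ} {M : Fin m → ℝ}

/-- **Phases that bring the finite parts of the Euler products to prescribed values.** -/
theorem phases_exist (hb : ∀ r x, ‖b r x‖ ≤ M r / (x.2 + 1 : ℕ))
    (hdiv : ∀ c : Fin m → ℂ, c ≠ 0 →
      ¬ Summable fun p : Nat.Primes => ‖∑ r, c r * b r (p, 0)‖ / (p : ℕ))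
    (F1 : Finset Nat.Primes) (z : Fin m → ℂ) {δ : ℝ} (hδ : 0 < δ) :
    ∃ P : Finset Nat.Primes, F1 ⊆ P ∧ ∃ u : Nat.Primes → ℝ,
      ∀ r, ‖∑ p ∈ P, GG (b r) p (((1 : ℝ) : ℂ) + u p * I) - z r‖ ≤ δ := by
  classical
  have hM : ∀ r, 0 ≤ M r := fun r => M_nonneg (hb r)
  set S : ℝ := 1 + ∑ r, M r ^ 2 with hS
  have hS0 : 0 < S := by
    have : 0 ≤ ∑ r, M r ^ 2 := Finset.sum_nonneg fun _ _ => by positivity
    linarith
  obtain ⟨F2, hF2⟩ := tails (ε := (δ / 2) ^ 2 / S) (by positivity)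
  obtain ⟨F3, hF3⟩ := tails (ε := δ / (2 * (1 + ∑ r, M r))) (by
    have : 0 ≤ ∑ r, M r := Finset.sum_nonneg fun r _ => hM r
    positivity)
  set F0 := F1 ∪ (F2 ∪ F3) with hF0
  set x : Nat.Primes → Fin m → ℂ := fun p r => b r (p, 0) * (wt 1 (p, 0) : ℂ) with hx
  set w : Fin m → ℂ := fun r => ∑ p ∈ F0, GG (b r) p (((1 : ℝ) : ℂ) + (0 : ℝ) * I) with hw
  obtain ⟨F, hF, ξ, hξ1, hξ2⟩ := steer x (fun c hc h => hdiv c hc (h.congr fun p => by
    have h1 : ∑ r, c r * x p r = (∑ r, c r * b r (p, 0)) * (wt 1 (p, 0) : ℂ) := by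
      rw [Finset.sum_mul]
      exact Finset.sum_congr rfl fun r _ => by
        simp only [hx]
        ring
    rw [h1, norm_mul, Complex.norm_real, Real.norm_of_nonneg (wt_nonneg _ _), wt_one_zero,
      div_eq_mul_inv])) F0 (δ := δ / 2) (by positivity) (fun F hF => by
    have h1 : ∀ p ∈ F, ∑ r, ‖x p r‖ ^ 2 ≤ S * wt 1 (sh (p, 0)) := by
      intro p _
      have h2 : ∀ r, ‖x p r‖ ^ 2 ≤ M r ^ 2 * wt 1 (p, 0) ^ 2 := by
        intro r
        simp only [hx]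
        rw [norm_mul, Complex.norm_real, Real.norm_of_nonneg (wt_nonneg _ _), mul_pow]
        exact mul_le_mul_of_nonneg_right
          (pow_le_pow_left₀ (norm_nonneg _) (norm_b_le (hb r) _) 2) (by positivity)
      refine (Finset.sum_le_sum fun r _ => h2 r).trans ?_
      rw [← Finset.sum_mul]
      have h3 := sq_wt_le (p, 0)
      have h4 : 0 ≤ ∑ r, M r ^ 2 := Finset.sum_nonneg fun _ _ => by positivity
      have h5 := wt_nonneg 1 (sh (p, 0))
      calc (∑ r, M r ^ 2) * wt 1 (p, 0) ^ 2 ≤ (∑ r, M r ^ 2) * wt 1 (sh (p, 0)) :=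
            mul_le_mul_of_nonneg_left h3 h4
        _ ≤ S * wt 1 (sh (p, 0)) := mul_le_mul_of_nonneg_right (by linarith) h5
    refine (Finset.sum_le_sum h1).trans ?_
    rw [← Finset.mul_sum]
    have h6 := hF2 (F.image fun p => ((p, 0) : PP)) (by
      intro y hy
      obtain ⟨p, hp, rfl⟩ := Finset.mem_image.1 hy
      intro hp2
      exact Finset.disjoint_left.1 hF hp
        (Finset.mem_union_right _ (Finset.mem_union_left _ hp2)))
    rw [Finset.sum_image fun p _ q _ h => congrArg Prod.fst h] at h6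
    calc S * ∑ p ∈ F, wt 1 (sh (p, 0)) ≤ S * ((δ / 2) ^ 2 / S) :=
          mul_le_mul_of_nonneg_left h6 hS0.le
      _ = (δ / 2) ^ 2 := by field_simp) (fun r => z r - w r)
  -- the phases
  have hex : ∀ p : Nat.Primes, ∃ v : ℝ, ((p : ℕ) : ℂ) ^ (-(((1 : ℝ) : ℂ) + v * I)) =
      ξ p * (wt 1 (p, 0) : ℂ) := by
    intro p
    refine exists_phase p 1 ?_
    rw [norm_mul, hξ1, one_mul, Complex.norm_real, Real.norm_of_nonneg (wt_nonneg _ _)]
    unfold wt
    simp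
  choose v hv using hex
  refine ⟨F0 ∪ F, Finset.subset_union_left.trans Finset.subset_union_left,
    fun p => if p ∈ F0 then 0 else v p, fun r => ?_⟩
  have hdis : Disjoint F0 F := hF.symm
  rw [Finset.sum_union hdis]
  have e1 : ∑ p ∈ F0, GG (b r) p (((1 : ℝ) : ℂ) + ((if p ∈ F0 then 0 else v p : ℝ) : ℂ) * I) =
      w r := by
    simp only [hw]
    exact Finset.sum_congr rfl fun p hp => by rw [if_pos hp]
  have hs : ∀ t : ℝ, 1 ≤ (((1 : ℝ) : ℂ) + t * I).re := fun t => by simp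
  have e2 : ∑ p ∈ F, GG (b r) p (((1 : ℝ) : ℂ) + ((if p ∈ F0 then 0 else v p : ℝ) : ℂ) * I) =
      ∑ p ∈ F, ξ p * x p r + ∑ p ∈ F, ∑' k : ℕ, tm (b r) (((1 : ℝ) : ℂ) + v p * I) (p, k + 1) := by
    rw [← Finset.sum_add_distrib]
    refine Finset.sum_congr rfl fun p hp => ?_
    rw [if_neg (Finset.disjoint_left.1 hF hp)]
    unfold GG
    rw [(summable_GG (hb r) p (hs (v p))).tsum_eq_zero_add]
    congr 1
    unfold tm
    rw [hv p]
    simp only [hx]
    ring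
  have e3 : ‖∑ p ∈ F, ∑' k : ℕ, tm (b r) (((1 : ℝ) : ℂ) + v p * I) (p, k + 1)‖ ≤ δ / 2 := by
    have hsw : ∀ p : Nat.Primes, Summable fun k : ℕ => wt 1 (sh (p, k)) := fun p =>
      wt_sh_summable.comp_injective (i := fun k : ℕ => ((p, k) : PP)) fun k l h =>
        congrArg Prod.snd h
    have h5 : ∀ p ∈ F, ‖∑' k : ℕ, tm (b r) (((1 : ℝ) : ℂ) + v p * I) (p, k + 1)‖ ≤
        M r * ∑' k : ℕ, wt 1 (sh (p, k)) := by
      intro p _
      rw [← tsum_mul_left]
      exact tsum_of_norm_bounded ((hsw p).mul_left (M r)).hasSum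
        fun k => norm_tm_sh (hb r) (hs (v p)) (p, k)
    refine (norm_sum_le_of_le _ h5).trans ?_
    rw [← Finset.mul_sum]
    have hlim : Tendsto (fun K : ℕ => ∑ p ∈ F, ∑ k ∈ Finset.range K, wt 1 (sh (p, k))) atTop
        (𝓝 (∑ p ∈ F, ∑' k : ℕ, wt 1 (sh (p, k)))) :=
      tendsto_finsetSum _ fun p _ => (hsw p).hasSum.tendsto_sum_nat
    have h6 : ∑ p ∈ F, ∑' k : ℕ, wt 1 (sh (p, k)) ≤ δ / (2 * (1 + ∑ r, M r)) := by
      refine le_of_tendsto' hlim fun K => ?_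
      have h7 := hF3 (F ×ˢ Finset.range K) (by
        intro y hy hy2
        exact Finset.disjoint_left.1 hF (Finset.mem_product.1 hy).1
          (Finset.mem_union_right _ (Finset.mem_union_right _ hy2)))
      rw [Finset.sum_product] at h7
      exact h7
    have h8 : M r ≤ 1 + ∑ r, M r := by
      have := Finset.single_le_sum (f := M) (fun r _ => hM r) (Finset.mem_univ r)
      linarith
    have h9 : 0 < 1 + ∑ r, M r := by
      have : 0 ≤ ∑ r, M r := Finset.sum_nonneg fun r _ => hM r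
      linarith
    have h10 : 0 ≤ ∑ p ∈ F, ∑' k : ℕ, wt 1 (sh (p, k)) :=
      Finset.sum_nonneg fun p _ => tsum_nonneg fun k => wt_nonneg _ _
    calc M r * ∑ p ∈ F, ∑' k : ℕ, wt 1 (sh (p, k))
        ≤ (1 + ∑ r, M r) * (δ / (2 * (1 + ∑ r, M r))) := mul_le_mul h8 h6 h10 h9.le
      _ = δ / 2 := by field_simp
  rw [e1, e2]
  have e4 : w r + (∑ p ∈ F, ξ p * x p r +
      ∑ p ∈ F, ∑' k : ℕ, tm (b r) (((1 : ℝ) : ℂ) + v p * I) (p, k + 1)) - z r =
      (∑ p ∈ F, ξ p * x p r - (z r - w r)) +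
        ∑ p ∈ F, ∑' k : ℕ, tm (b r) (((1 : ℝ) : ℂ) + v p * I) (p, k + 1) := by ring
  rw [e4]
  refine (norm_add_le _ _).trans ?_
  have := hξ2 r
  linarith

/-- **The values on the edge are dense.** -/
theorem dense_values (hb : ∀ r x, ‖b r x‖ ≤ M r / (x.2 + 1 : ℕ))
    (hdiv : ∀ c : Fin m → ℂ, c ≠ 0 →
      ¬ Summable fun p : Nat.Primes => ‖∑ r, c r * b r (p, 0)‖ / (p : ℕ))
    (z : Fin m → ℂ) {δ : ℝ} (hδ : 0 < δ) :
    ∃ T : ℝ, 0 < T ∧ ∃ c : ℝ, 0 < c ∧ ∀ a : ℝ, ENNReal.ofReal c ≤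
      volume {τ : ℝ | (a ≤ τ ∧ τ ≤ a + T) ∧ ∀ r, ‖bl (b r) τ - z r‖ < δ} := by
  classical
  have hM : ∀ r, 0 ≤ M r := fun r => M_nonneg (hb r)
  set S : ℝ := 1 + ∑ r, M r ^ 2 with hS
  have hS1 : ∀ r, M r ^ 2 ≤ S := by
    intro r
    have := Finset.single_le_sum (f := fun r => M r ^ 2) (fun r _ => by positivity)
      (Finset.mem_univ r)
    linarith
  have hS0 : 0 < S := by
    have : 0 ≤ ∑ r, M r ^ 2 := Finset.sum_nonneg fun _ _ => by positivity
    linarith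
  set η : ℝ := δ / 3 with hη
  have hη0 : 0 < η := by positivity
  set v : ℝ := η ^ 2 / (32 * ((m : ℝ) + 1)) with hv
  have hv0 : 0 < v := by positivity
  obtain ⟨F1, hF1⟩ := tails (ε := v / S) (by positivity)
  obtain ⟨P, hP, u, hu⟩ := phases_exist hb hdiv F1 z (δ := δ / 3) (by positivity)
  set R : ℝ := 1 + ∑ r, M r with hR
  have hR0 : 0 < R := by
    have : 0 ≤ ∑ r, M r := Finset.sum_nonneg fun r _ => hM r
    linarith
  have hMR : ∀ r, M r ≤ R := by
    intro r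
    have := Finset.single_le_sum (f := M) (fun r _ => hM r) (Finset.mem_univ r)
    linarith
  set q : ℝ := δ / (3 * (2 * Real.pi) * R * ((P.card : ℝ) + 1)) with hq
  have hpi := Real.pi_pos
  have hq0 : 0 < q := by positivity
  set ε : ℝ := min q (1 / 2) with hε
  have hε0 : 0 < ε := lt_min hq0 (by norm_num)
  obtain ⟨T, hT, c, hc, H⟩ := good_measure hb P u (η := η) (v := v) hε0 (min_le_right _ _) hη0
    hv0.le (fun r A hA => by
      have h1 : ∀ x ∈ A, ‖b r x * (wt 1 x : ℂ)‖ ^ 2 ≤ S * wt 1 (sh x) := by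
        intro x _
        rw [norm_mul, Complex.norm_real, Real.norm_of_nonneg (wt_nonneg _ _), mul_pow]
        have h2 : ‖b r x‖ ^ 2 ≤ S :=
          (pow_le_pow_left₀ (norm_nonneg _) (norm_b_le (hb r) _) 2).trans (hS1 r)
        exact mul_le_mul h2 (sq_wt_le x) (by positivity) hS0.le
      refine (Finset.sum_le_sum h1).trans ?_
      rw [← Finset.mul_sum]
      have h3 := hF1 A fun x hx hx1 => hA x hx (hP hx1)
      calc S * ∑ x ∈ A, wt 1 (sh x) ≤ S * (v / S) := mul_le_mul_of_nonneg_left h3 hS0.le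
        _ = v := by field_simp) (by
      have h1 : (m : ℝ) * (4 / η ^ 2 * v) = m / (8 * ((m : ℝ) + 1)) := by
        rw [hv]
        field_simp
        ring
      rw [h1, div_le_div_iff₀ (by positivity) (by norm_num)]
      linarith)
  refine ⟨T, hT, c, hc, fun a => (H a).trans ?_⟩
  -- the exceptional set
  have hae : ∀ᵐ τ : ℝ, ∀ r, bl (b r) τ = ∑ p ∈ P, GG (b r) p (((1 : ℝ) : ℂ) + τ * I) +
      bl (off P (b r)) τ := by
    rw [ae_all_iff]
    intro r
    filter_upwards [ae_notMem (hb r), ae_notMem (norm_off (hb r) P)] with τ h1 h2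
    exact bl_off (hb r) P h1 h2
  refine measure_mono_ae ?_
  filter_upwards [hae] with τ hτ
  rintro ⟨h1, h2, h3⟩
  refine ⟨h1, fun r => ?_⟩
  rw [hτ r]
  have h4 : ∀ p ∈ P, ‖GG (b r) p (((1 : ℝ) : ℂ) + τ * I) -
      GG (b r) p (((1 : ℝ) : ℂ) + u p * I)‖ ≤ M r * (2 * Real.pi * ε) := by
    intro p hp
    obtain ⟨k, hk⟩ := h2 p hp
    refine GG_lip (hb r) p le_rfl (n := k) ?_
    have h5 : τ * Real.log (p : ℕ) - u p * Real.log (p : ℕ) - 2 * Real.pi * k =
        2 * Real.pi * ((τ - u p) * Real.log (p : ℕ) / (2 * Real.pi) - k) := by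
      field_simp
    rw [h5, abs_mul, abs_of_pos (by positivity)]
    exact mul_le_mul_of_nonneg_left hk.le (by positivity)
  have h5 : ‖∑ p ∈ P, GG (b r) p (((1 : ℝ) : ℂ) + τ * I) -
      ∑ p ∈ P, GG (b r) p (((1 : ℝ) : ℂ) + u p * I)‖ ≤ δ / 3 := by
    rw [← Finset.sum_sub_distrib]
    refine (norm_sum_le_of_le _ h4).trans ?_
    rw [Finset.sum_const, nsmul_eq_mul]
    have h6 : ε ≤ q := min_le_left _ _
    have h7 : (P.card : ℝ) * (M r * (2 * Real.pi * ε)) ≤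
        ((P.card : ℝ) + 1) * (R * (2 * Real.pi * q)) := by
      have := hM r
      gcongr
      · linarith
      · exact hMR r
    refine h7.trans (le_of_eq ?_)
    rw [hq]
    field_simp
  have h6 : ∑ p ∈ P, GG (b r) p (((1 : ℝ) : ℂ) + τ * I) + bl (off P (b r)) τ - z r =
      (∑ p ∈ P, GG (b r) p (((1 : ℝ) : ℂ) + τ * I) -
        ∑ p ∈ P, GG (b r) p (((1 : ℝ) : ℂ) + u p * I)) +
      (∑ p ∈ P, GG (b r) p (((1 : ℝ) : ℂ) + u p * I) - z r) + bl (off P (b r)) τ := by ring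
  rw [h6]
  have h7 := h3 r
  have h8 := hu r
  have h9 := norm_add₃_le (a := (∑ p ∈ P, GG (b r) p (((1 : ℝ) : ℂ) + τ * I) -
        ∑ p ∈ P, GG (b r) p (((1 : ℝ) : ℂ) + u p * I)))
      (b := (∑ p ∈ P, GG (b r) p (((1 : ℝ) : ℂ) + u p * I) - z r)) (c := bl (off P (b r)) τ)
  linarith

end

end Pool.Agent.N60.EV
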