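import Pool.Agent.N60.EV.Main
import Pool.Agent.N882.SP.Fin

/-!
# The values on the edge of the L-functions of the Schur functors
-/

set_option autoImplicit false

namespace Pool.Agent.N60.EV

open Complex MeasureTheory Finset Filter Topology
open Pool.Agent.N882.SP (Motive box IsSchurFunctor)

lemma not_summable_ntr {M : Motive} {S : Set Nat.Primes} (hS : S.Finite)
    (h : ¬ Summable fun p : Nat.Primes =>
        ‖(M.frob p).sum‖ / (p : ℝ) ^ ((M.weight : ℝ) / 2 + 1)) :
    ¬ Summable fun p : Nat.Primes => ‖ntr M S p‖ / (p : ℕ) := by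
  classical
  intro h1
  apply h
  refine (summable_congr_cofinite ?_).1 h1
  filter_upwards [hS.compl_mem_cofinite] with p hp
  have hp' : p ∉ S := hp
  have h0 : (0 : ℝ) < ((p : ℕ) : ℝ) := by exact_mod_cast p.2.pos
  unfold ntr
  rw [if_neg hp', norm_div, Complex.norm_real,
    Real.norm_of_nonneg (Real.rpow_nonneg h0.le _), div_div, Real.rpow_add h0, Real.rpow_one]

theorem schur_dense (H : Motive) (l : ℕ) (hl : l ≤ H.rank) (k : Fin l → ℕ)
    (M : (Fin l → ℕ) → Motive) (hM : ∀ lam ∈ box H.rank k, IsSchurFunctor H lam (M lam)) :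
    ∃ lam ∈ box H.rank k, ∀ S : Set Nat.Primes, S.Finite → Pure (M lam) S →
      ∀ f : ℝ → ℂ, IsBoundary (M lam) S f → ValuesDense fun _ : Fin 1 => f := by
  obtain ⟨lam, hlam, h1, -⟩ := (Pool.Agent.N882.SP.main H l hl k M hM).2.1
  refine ⟨lam, hlam, fun S hS hP f hf => ?_⟩
  have h2 := not_summable_ntr hS h1
  refine ((tfae_values (H := fun _ : Fin 1 => M lam) (S := fun _ => S) (fun _ => hP)
    (fun _ => hf)).out 0 1).2 ?_
  intro c hc hsum
  apply h2
  have hc0 : c 0 ≠ 0 := by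
    intro h0
    apply hc
    funext r
    rw [Fin.fin_one_eq_zero r, h0]
    rfl
  have h3 : (fun p : Nat.Primes => ‖∑ r, c r * ntr (M lam) S p‖ / (p : ℕ)) =
      fun p : Nat.Primes => ‖c 0‖ * (‖ntr (M lam) S p‖ / (p : ℕ)) := by
    funext p
    rw [Fin.sum_univ_one, norm_mul, mul_div_assoc]
  have h4 : Summable fun p : Nat.Primes => ‖c 0‖ * (‖ntr (M lam) S p‖ / (p : ℕ)) := by
    rw [← h3]
    exact hsum
  exact (summable_mul_left_iff (norm_ne_zero_iff.2 hc0)).1 h4

end Pool.Agent.N60.EV
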