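import Pool.Agent.TH339.MP.U3
import Pool.Agent.W755.HaightA

/-!
# Means over all long intervals
-/

set_option autoImplicit false

namespace Pool.Agent.N60.EV

open Complex MeasureTheory Finset Filter Topology
open Pool.Agent.TH339.MP

/-- the frequency with the given exponents -/
noncomputable def lin (c : Nat.Primes →₀ ℤ) : ℝ := c.sum fun p j => (j : ℝ) * Real.log (p : ℕ)

lemma lin_add (c d : Nat.Primes →₀ ℤ) : lin (c + d) = lin c + lin d := by
  unfold lin
  refine Finsupp.sum_add_index' (fun p => by simp) fun p i j => ?_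
  push_cast
  ring

lemma lin_zero : lin 0 = 0 := by simp [lin]

lemma lin_single (p : Nat.Primes) (j : ℤ) : lin (Finsupp.single p j) = j * Real.log (p : ℕ) := by
  unfold lin
  exact Finsupp.sum_single_index (by simp)

lemma lin_neg (c : Nat.Primes →₀ ℤ) : lin (-c) = -lin c := by
  have h := lin_add c (-c)
  rw [add_neg_cancel, lin_zero] at h
  linarith

lemma lin_sub (c d : Nat.Primes →₀ ℤ) : lin (c - d) = lin c - lin d := by
  rw [sub_eq_add_neg, lin_add, lin_neg, sub_eq_add_neg]

lemma lin_sum {ι : Type*} (s : Finset ι) (c : ι → Nat.Primes →₀ ℤ) :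
    lin (∑ i ∈ s, c i) = ∑ i ∈ s, lin (c i) := by
  classical
  induction s using Finset.induction_on with
  | empty => simp [lin_zero]
  | insert a s ha ih => rw [Finset.sum_insert ha, Finset.sum_insert ha, lin_add, ih]

/-- unique factorisation -/
lemma lin_eq_zero {c : Nat.Primes →₀ ℤ} (h : lin c = 0) : c = 0 := by
  classical
  have h1 := Pool.Agent.W755.Haight.log_prime_indep (ι := c.support) (fun i => ((i.1 : ℕ)))
    (fun i => i.1.2) (fun i j hij => Subtype.ext (Subtype.ext hij)) (fun i => c i.1) (by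
      unfold lin Finsupp.sum at h
      rw [← Finset.sum_coe_sort] at h
      exact h)
  ext p
  by_cases hp : p ∈ c.support
  · exact h1 ⟨p, hp⟩
  · rw [Finsupp.notMem_support_iff.1 hp]
    rfl

lemma fr_eq_lin (x : PP) : fr x = lin (Finsupp.single x.1 (-((x.2 : ℤ) + 1))) := by
  rw [lin_single]
  unfold fr
  push_cast
  ring

/-- the mean of `f` over all long intervals is `μ` -/
def HasMean (f : ℝ → ℂ) (μ : ℂ) : Prop :=
  Continuous f ∧ ∀ ε : ℝ, 0 < ε → ∃ T0 : ℝ, 0 < T0 ∧ ∀ T : ℝ, T0 ≤ T → ∀ a : ℝ,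
    ‖(∫ u in a..(a + T), f u) - T * μ‖ ≤ ε * T

lemma HasMean.congr {f g : ℝ → ℂ} {μ : ℂ} (h : HasMean f μ) (hfg : ∀ u, f u = g u) :
    HasMean g μ := by
  have : f = g := funext hfg
  rwa [this] at h

lemma HasMean.add {f g : ℝ → ℂ} {μ ν : ℂ} (hf : HasMean f μ) (hg : HasMean g ν) :
    HasMean (fun u => f u + g u) (μ + ν) := by
  refine ⟨hf.1.add hg.1, fun ε hε => ?_⟩
  obtain ⟨T1, h1, h2⟩ := hf.2 (ε / 2) (by positivity)
  obtain ⟨T2, h3, h4⟩ := hg.2 (ε / 2) (by positivity)
  refine ⟨max T1 T2, lt_max_of_lt_left h1, fun T hT a => ?_⟩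
  have h5 := h2 T ((le_max_left _ _).trans hT) a
  have h6 := h4 T ((le_max_right _ _).trans hT) a
  rw [intervalIntegral.integral_add (hf.1.intervalIntegrable _ _) (hg.1.intervalIntegrable _ _)]
  have h7 : (∫ u in a..(a + T), f u) + (∫ u in a..(a + T), g u) - T * (μ + ν) =
      ((∫ u in a..(a + T), f u) - T * μ) + ((∫ u in a..(a + T), g u) - T * ν) := by ring
  rw [h7]
  refine (norm_add_le _ _).trans ?_
  linarith

lemma HasMean.const_mul {f : ℝ → ℂ} {μ : ℂ} (c : ℂ) (hf : HasMean f μ) :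
    HasMean (fun u => c * f u) (c * μ) := by
  refine ⟨continuous_const.mul hf.1, fun ε hε => ?_⟩
  obtain ⟨T1, h1, h2⟩ := hf.2 (ε / (‖c‖ + 1)) (by positivity)
  refine ⟨T1, h1, fun T hT a => ?_⟩
  have h5 := h2 T hT a
  have h6 : (∫ u in a..(a + T), c * f u) - T * (c * μ) =
      c * ((∫ u in a..(a + T), f u) - T * μ) := by
    rw [intervalIntegral.integral_const_mul]
    ring
  rw [h6, norm_mul]
  have h7 : ‖c‖ * (ε / (‖c‖ + 1) * T) ≤ ε * T := by
    have h8 : ‖c‖ * (ε / (‖c‖ + 1)) ≤ ε := by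
      rw [← mul_div_assoc, div_le_iff₀ (by positivity)]
      nlinarith [norm_nonneg c]
    have hT0 : 0 ≤ T := h1.le.trans hT
    calc ‖c‖ * (ε / (‖c‖ + 1) * T) = ‖c‖ * (ε / (‖c‖ + 1)) * T := by ring
      _ ≤ ε * T := mul_le_mul_of_nonneg_right h8 hT0
  exact (mul_le_mul_of_nonneg_left h5 (norm_nonneg c)).trans h7

lemma HasMean.zero : HasMean (fun _ => 0) 0 := by
  refine ⟨continuous_const, fun ε hε => ⟨1, one_pos, fun T hT a => ?_⟩⟩
  simp
  positivity

lemma HasMean.sum {ι : Type*} (s : Finset ι) {f : ι → ℝ → ℂ} {μ : ι → ℂ}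
    (h : ∀ i ∈ s, HasMean (f i) (μ i)) : HasMean (fun u => ∑ i ∈ s, f i u) (∑ i ∈ s, μ i) := by
  classical
  induction s using Finset.induction_on with
  | empty => simpa using HasMean.zero
  | insert a s ha ih =>
    simp only [Finset.sum_insert ha]
    exact (h a (Finset.mem_insert_self _ _)).add
      (ih fun i hi => h i (Finset.mem_insert_of_mem hi))

open Classical in
lemma hasMean_ee (l : ℝ) : HasMean (ee l) (if l = 0 then 1 else 0) := by
  refine ⟨continuous_ee l, fun ε hε => ?_⟩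
  by_cases hl : l = 0
  · refine ⟨1, one_pos, fun T hT a => ?_⟩
    rw [if_pos hl, hl]
    simp only [ee_zero_left]
    have : (∫ _u in a..(a + T), (1 : ℂ)) - T * 1 = 0 := by
      rw [intervalIntegral.integral_const]
      simp
    rw [this, norm_zero]
    positivity
  · rw [if_neg hl]
    have hl0 : 0 < |l| := abs_pos.2 hl
    refine ⟨2 / (|l| * ε), by positivity, fun T hT a => ?_⟩
    rw [mul_zero, sub_zero]
    have hc : ((l : ℂ) * I) ≠ 0 := mul_ne_zero (Complex.ofReal_ne_zero.2 hl) Complex.I_ne_zero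
    have h1 : ∀ u : ℝ, ee l u = Complex.exp (((l : ℂ) * I) * u) := by
      intro u
      unfold ee
      congr 1
      push_cast
      ring
    have h2 : (∫ u in a..(a + T), ee l u) =
        (Complex.exp (((l : ℂ) * I) * ((a + T : ℝ) : ℂ)) - Complex.exp (((l : ℂ) * I) * (a : ℂ))) /
          ((l : ℂ) * I) := by
      simp_rw [h1]
      exact integral_exp_mul_complex hc
    rw [h2, norm_div, ← h1, ← h1]
    have h3 : ‖((l : ℂ) * I)‖ = |l| := by
      rw [norm_mul, Complex.norm_I, mul_one, Complex.norm_real, Real.norm_eq_abs]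
    rw [h3]
    have h4 : ‖ee l (a + T) - ee l a‖ ≤ 2 := by
      refine (norm_sub_le _ _).trans ?_
      rw [norm_ee, norm_ee]
      norm_num
    have h5 : 2 / |l| ≤ ε * T := by
      have h6 := (div_le_iff₀ (by positivity : 0 < |l| * ε)).1 hT
      rw [div_le_iff₀ hl0]
      linarith
    exact (div_le_div_of_nonneg_right h4 hl0.le).trans h5

end Pool.Agent.N60.EV
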