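import Pool.Agent.N60.EV.Freq

/-!
# The kernel which detects prescribed phases
-/

set_option autoImplicit false

namespace Pool.Agent.N60.EV

open Complex MeasureTheory Finset Filter Topology
open Pool.Agent.TH339.MP
open Pool.Agent.Helper352 (ker_nonneg ker_le_one ker_continuous ker_le_of_far ker_lt_one
  ker_pow_expand)

/-- the kernel: it is `1` if `p^{-iτ} = p^{-iu_p}` for all `p ∈ P` -/
noncomputable def KK (P : Finset Nat.Primes) (u : Nat.Primes → ℝ) (n : ℕ) (τ : ℝ) : ℝ :=
  ∏ i : P, Helper352.ker ((τ - u i.1) * Real.log (i.1 : ℕ) / (2 * Real.pi)) ^ n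

variable {P : Finset Nat.Primes} {u : Nat.Primes → ℝ} {n : ℕ}

lemma KK_nonneg (τ : ℝ) : 0 ≤ KK P u n τ :=
  Finset.prod_nonneg fun _ _ => pow_nonneg (ker_nonneg _) _

lemma KK_le_one (τ : ℝ) : KK P u n τ ≤ 1 :=
  Finset.prod_le_one (fun _ _ => pow_nonneg (ker_nonneg _) _)
    fun _ _ => pow_le_one₀ (ker_nonneg _) (ker_le_one _)

lemma KK_continuous : Continuous (KK P u n) := by
  unfold KK
  have := ker_continuous
  fun_prop

lemma KK_far {ε : ℝ} (hε : 0 < ε) (hε2 : ε ≤ 1 / 2) {τ : ℝ} {p : Nat.Primes} (hp : p ∈ P)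
    (h : ∀ k : ℤ, ε ≤ |(τ - u p) * Real.log (p : ℕ) / (2 * Real.pi) - k|) :
    KK P u n τ ≤ Helper352.ker ε ^ n := by
  classical
  unfold KK
  rw [← Finset.mul_prod_erase univ _ (Finset.mem_univ (⟨p, hp⟩ : P))]
  calc Helper352.ker ((τ - u p) * Real.log (p : ℕ) / (2 * Real.pi)) ^ n *
        ∏ x ∈ univ.erase (⟨p, hp⟩ : P), Helper352.ker ((τ - u x.1) * Real.log (x.1 : ℕ) / (2 * Real.pi)) ^ n
      ≤ Helper352.ker ε ^ n * 1 := by
        apply mul_le_mul
        · exact pow_le_pow_left₀ (ker_nonneg _) (ker_le_of_far hε hε2 h) n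
        · apply Finset.prod_le_one
          · intro j _; exact pow_nonneg (ker_nonneg _) n
          · intro j _; exact pow_le_one₀ (ker_nonneg _) (ker_le_one _)
        · apply Finset.prod_nonneg
          intro j _; exact pow_nonneg (ker_nonneg _) n
        · exact pow_nonneg (ker_nonneg ε) n
    _ = Helper352.ker ε ^ n := mul_one _

/-- the mean of the kernel -/
noncomputable def m0 (P : Finset Nat.Primes) (n : ℕ) : ℝ :=
  (((2 * n).choose n : ℝ) / 4 ^ n) ^ P.card

lemma m0_pos (P : Finset Nat.Primes) (n : ℕ) : 0 < m0 P n := by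
  unfold m0
  have h : 0 < (2 * n).choose n := Nat.choose_pos (by omega)
  positivity

/-- the exponents of a frequency of the kernel -/
noncomputable def ex (P : Finset Nat.Primes) (n : ℕ) (x : P → ℕ) : Nat.Primes →₀ ℤ :=
  ∑ i : P, Finsupp.single i.1 ((x i : ℤ) - n)

lemma ex_apply (x : P → ℕ) (i : P) : ex P n x i.1 = (x i : ℤ) - n := by
  classical
  unfold ex
  rw [Finsupp.finsetSum_apply, Finset.sum_eq_single i]
  · simp
  · intro j _ hj
    rw [Finsupp.single_apply, if_neg fun h => hj (Subtype.ext h)]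
  · intro h
    exact absurd (Finset.mem_univ i) h

lemma ex_apply_not (x : P → ℕ) {p : Nat.Primes} (hp : p ∉ P) : ex P n x p = 0 := by
  classical
  unfold ex
  rw [Finsupp.finsetSum_apply]
  refine Finset.sum_eq_zero fun j _ => ?_
  rw [Finsupp.single_apply, if_neg]
  intro h
  exact hp (h ▸ j.2)

/-- the coefficients of the kernel -/
noncomputable def cK (u : Nat.Primes → ℝ) (n : ℕ) (x : P → ℕ) : ℂ :=
  ((∏ i : P, (((2 * n).choose (x i) : ℝ) / 4 ^ n) : ℝ) : ℂ) *
    Complex.exp (-((∑ i : P, ((x i : ℝ) - n) * (u i.1 * Real.log (i.1 : ℕ)) : ℝ) * I))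

lemma KK_expand (τ : ℝ) : ((KK P u n τ : ℝ) : ℂ) =
    ∑ x ∈ Fintype.piFinset (fun _ : P => range (2 * n + 1)), cK u n x * ee (lin (ex P n x)) τ := by
  classical
  unfold KK
  push_cast
  have h1 : ∀ i : P, ((Helper352.ker ((τ - u i.1) * Real.log (i.1 : ℕ) / (2 * Real.pi)) : ℝ) : ℂ) ^ n = _ :=
    fun i => ker_pow_expand ((τ - u i.1) * Real.log (i.1 : ℕ) / (2 * Real.pi)) n
  rw [Finset.prod_congr rfl (fun i _ => h1 i), Finset.prod_univ_sum]
  refine Finset.sum_congr rfl ?_
  intro x _
  rw [Finset.prod_mul_distrib, ← Complex.exp_sum]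
  unfold cK ee
  push_cast
  conv_rhs => rw [mul_assoc, ← Complex.exp_add]
  congr 2
  unfold ex
  rw [lin_sum]
  push_cast
  simp only [lin_single]
  rw [Finset.sum_mul, Finset.sum_mul, Finset.sum_mul, ← Finset.sum_neg_distrib,
    ← Finset.sum_add_distrib]
  refine Finset.sum_congr rfl fun i _ => ?_
  have hpi : (Real.pi : ℂ) ≠ 0 := by exact_mod_cast Real.pi_ne_zero
  push_cast
  field_simp
  ring

/-- the mean of the kernel times an exponential -/
lemma mean_KK_ee (u : Nat.Primes → ℝ) (n : ℕ) {d : Nat.Primes →₀ ℤ} (hd : ∀ p ∈ P, d p = 0) :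
    HasMean (fun τ => ((KK P u n τ : ℝ) : ℂ) * ee (lin d) τ)
      (if d = 0 then (m0 P n : ℂ) else 0) := by
  classical
  have h1 : HasMean (fun τ => ∑ x ∈ Fintype.piFinset (fun _ : P => range (2 * n + 1)),
      cK u n x * ee (lin (ex P n x + d)) τ)
      (∑ x ∈ Fintype.piFinset (fun _ : P => range (2 * n + 1)),
        cK u n x * if lin (ex P n x + d) = 0 then 1 else 0) :=
    HasMean.sum _ fun x _ => (hasMean_ee _).const_mul _
  have h2 : (∑ x ∈ Fintype.piFinset (fun _ : P => range (2 * n + 1)),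
      cK u n x * if lin (ex P n x + d) = 0 then 1 else 0) = if d = 0 then (m0 P n : ℂ) else 0 := by
    by_cases h0 : d = 0
    · rw [if_pos h0, Finset.sum_eq_single (fun _ => n)]
      · have h3 : ex P n (fun _ => n) = 0 := by
          unfold ex
          simp
        rw [h3, h0, add_zero, lin_zero, if_pos rfl, mul_one]
        unfold cK m0
        simp [div_pow]
      · intro x _ hx
        rw [if_neg, mul_zero]
        intro h
        apply hx
        have h4 := lin_eq_zero h
        rw [h0, add_zero] at h4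
        funext i
        have h5 := ex_apply (n := n) x i
        rw [h4] at h5
        simp only [Finsupp.coe_zero, Pi.zero_apply] at h5
        omega
      · intro h
        refine absurd ?_ h
        rw [Fintype.mem_piFinset]
        intro i
        rw [Finset.mem_range]
        omega
    · rw [if_neg h0]
      refine Finset.sum_eq_zero fun x _ => ?_
      rw [if_neg, mul_zero]
      intro h
      apply h0
      have h4 := lin_eq_zero h
      ext p
      by_cases hp : p ∈ P
      · rw [hd p hp]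
        rfl
      · have h5 := DFunLike.congr_fun h4 p
        rw [Finsupp.add_apply, ex_apply_not x hp, zero_add] at h5
        exact h5
  rw [h2] at h1
  refine h1.congr fun τ => ?_
  rw [KK_expand, Finset.sum_mul]
  refine Finset.sum_congr rfl fun x _ => ?_
  rw [lin_add, ee_add_left]
  ring

/-- the mean of the kernel times the square of a trigonometric polynomial in other phases -/
lemma mean_KK_sq (u : Nat.Primes → ℝ) (n : ℕ) (A : Finset PP) (hA : ∀ x ∈ A, x.1 ∉ P)
    (c : PP → ℂ) : HasMean (fun τ => ((KK P u n τ * ‖∑ x ∈ A, c x * ee (fr x) τ‖ ^ 2 : ℝ) : ℂ))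
      ((m0 P n * ∑ x ∈ A, ‖c x‖ ^ 2 : ℝ) : ℂ) := by
  classical
  set d : PP → PP → Nat.Primes →₀ ℤ := fun x y => Finsupp.single x.1 (-((x.2 : ℤ) + 1)) -
    Finsupp.single y.1 (-((y.2 : ℤ) + 1)) with hd
  have hdP : ∀ x ∈ A, ∀ y ∈ A, ∀ p ∈ P, d x y p = 0 := by
    intro x hx y hy p hp
    simp only [hd]
    rw [Finsupp.sub_apply, Finsupp.single_apply, Finsupp.single_apply,
      if_neg fun h => hA x hx (by rw [h]; exact hp), if_neg fun h => hA y hy (by rw [h]; exact hp),
      sub_zero]
  have hd0 : ∀ x y, d x y = 0 → x = y := by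
    intro x y h
    have h1 := DFunLike.congr_fun h x.1
    simp only [hd] at h1
    rw [Finsupp.sub_apply, Finsupp.single_eq_same, Finsupp.single_apply] at h1
    simp only [Finsupp.coe_zero, Pi.zero_apply] at h1
    by_cases h2 : y.1 = x.1
    · rw [if_pos h2] at h1
      exact Prod.ext h2.symm (by omega)
    · rw [if_neg h2] at h1
      omega
  have h1 : HasMean (fun τ => ∑ x ∈ A, ∑ y ∈ A, (c x * (starRingEnd ℂ) (c y)) *
      (((KK P u n τ : ℝ) : ℂ) * ee (lin (d x y)) τ))
      (∑ x ∈ A, ∑ y ∈ A, (c x * (starRingEnd ℂ) (c y)) *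
        if d x y = 0 then (m0 P n : ℂ) else 0) :=
    HasMean.sum _ fun x hx => HasMean.sum _ fun y hy =>
      (mean_KK_ee u n (hdP x hx y hy)).const_mul _
  have h2 : (∑ x ∈ A, ∑ y ∈ A, (c x * (starRingEnd ℂ) (c y)) *
        if d x y = 0 then (m0 P n : ℂ) else 0) = ((m0 P n * ∑ x ∈ A, ‖c x‖ ^ 2 : ℝ) : ℂ) := by
    push_cast
    rw [Finset.mul_sum]
    refine Finset.sum_congr rfl fun x hx => ?_
    rw [Finset.sum_eq_single x]
    · have : d x x = 0 := by simp [hd]
      rw [if_pos this, Complex.mul_conj, Complex.normSq_eq_norm_sq]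
      push_cast
      ring
    · intro y _ hy
      rw [if_neg fun h => hy (hd0 x y h).symm, mul_zero]
    · intro h
      exact absurd hx h
  rw [h2] at h1
  refine h1.congr fun τ => ?_
  push_cast
  rw [← Complex.mul_conj', map_sum, Finset.sum_mul_sum, Finset.mul_sum]
  refine Finset.sum_congr rfl fun x _ => ?_
  rw [Finset.mul_sum]
  refine Finset.sum_congr rfl fun y _ => ?_
  have h3 : ee (lin (d x y)) τ = ee (fr x) τ * (starRingEnd ℂ) (ee (fr y) τ) := by
    simp only [hd]
    rw [lin_sub, ← fr_eq_lin, ← fr_eq_lin, sub_eq_add_neg, ee_add_left, ee_neg_left]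
  rw [h3, map_mul]
  ring

end Pool.Agent.N60.EV
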