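import Pool.Agent.N60.EV.Mot

/-!
# The values on the edge of the L-functions of motives
-/

set_option autoImplicit false

namespace Pool.Agent.N60.EV

open Complex MeasureTheory Finset Filter Topology Metric
open Pool.Agent.TH339.MP
open Pool.Agent.W350.Edge (divSet dimH_divSet)
open Pool.Agent.N882.SP (Motive)
open Pool.Agent.N60.EH (cb norm_cb ae_bl_cb FF_cb bl_eq FF_continuousOn norm_tm_le summable_GG)

lemma summable_of_primes {b : PP → ℂ} {M : ℝ} (hb : ∀ x, ‖b x‖ ≤ M / (x.2 + 1 : ℕ))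
    (h : Summable fun p : Nat.Primes => ‖b (p, 0)‖ / (p : ℕ)) :
    Summable fun x => ‖b x‖ * wt 1 x := by
  have h2 : Summable fun p : Nat.Primes => ‖b (p, 0)‖ * wt 1 (p, 0) :=
    h.congr fun p => by rw [wt_one_zero, div_eq_mul_inv]
  have h3 : Summable fun x : PP => ‖b (sh x)‖ * wt 1 (sh x) := by
    refine Summable.of_nonneg_of_le (fun x => mul_nonneg (norm_nonneg _) (wt_nonneg _ _))
      (fun x => ?_) (wt_sh_summable.mul_left M)
    exact mul_le_mul_of_nonneg_right (norm_b_le hb _) (wt_nonneg _ _)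
  rw [summable_prod_of_nonneg (fun x => mul_nonneg (norm_nonneg _) (wt_nonneg _ _))]
  have h4 : ∀ p : Nat.Primes, Summable fun k : ℕ => ‖b (p, k)‖ * wt 1 (p, k) := by
    intro p
    have := (summable_GG hb p (s := (1 : ℂ)) (by simp)).norm
    refine this.congr fun k => ?_
    rw [norm_tm, Complex.one_re]
  refine ⟨h4, ?_⟩
  have h5 : Summable fun p : Nat.Primes => ∑' k : ℕ, ‖b (p, k + 1)‖ * wt 1 (p, k + 1) := h3.prod
  refine (h2.add h5).congr fun p => ?_
  exact (h4 p).tsum_eq_zero_add.symm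

variable {m : ℕ} {H : Fin m → Motive} {S : Fin m → Set Nat.Primes}

/-- **The values on the edge.** -/
theorem tfae_values (hS : ∀ r, Pure (H r) (S r)) {l : Fin m → ℝ → ℂ}
    (hl : ∀ r, IsBoundary (H r) (S r) (l r)) :
    List.TFAE [ValuesDense l,
      ∀ c : Fin m → ℂ, c ≠ 0 →
        ¬ Summable fun p : Nat.Primes => ‖∑ r, c r * ntr (H r) (S r) p‖ / (p : ℕ),
      ∀ c : Fin m → ℂ, c ≠ 0 → ∀ B : ℝ, ¬ ∀ᵐ τ : ℝ, (∑ r, c r * l r τ).re ≤ B] := by
  classical
  set b : Fin m → PP → ℂ := fun r => bc (hS r) with hbdef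
  have hb : ∀ r x, ‖b r x‖ ≤ ((H r).rank : ℝ) / (x.2 + 1 : ℕ) := fun r => norm_bc (hS r)
  have hae : ∀ᵐ τ : ℝ, ∀ r, l r τ = bl (b r) τ := ae_all_iff.2 fun r => boundary_unique (hS r) (hl r)
  have hb0 : ∀ r (p : Nat.Primes), b r (p, 0) = ntr (H r) (S r) p := fun r p => bc_zero (hS r) p
  tfae_have 2 → 1 := by
    intro h z δ hδ
    obtain ⟨T, hT, c, hc, H1⟩ := dense_values hb (by
      intro c hc hsum
      refine h c hc (hsum.congr fun p => ?_)
      simp only [hb0]) z hδ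
    refine ⟨T, hT, c, hc, fun a => (H1 a).trans ?_⟩
    refine measure_mono_ae ?_
    filter_upwards [hae] with τ hτ
    rintro ⟨h1, h2⟩
    exact ⟨h1, fun r => by rw [hτ r]; exact h2 r⟩
  tfae_have 1 → 3 := by
    intro h c hc B hB
    have hN : 0 < ∑ r, ‖c r‖ ^ 2 := by
      obtain ⟨r, hr⟩ : ∃ r, c r ≠ 0 := by
        by_contra hcon
        push Not at hcon
        exact hc (funext hcon)
      exact Finset.sum_pos' (fun _ _ => by positivity)
        ⟨r, Finset.mem_univ r, by have := norm_pos_iff.2 hr; positivity⟩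
    set N : ℝ := ∑ r, ‖c r‖ ^ 2 with hNdef
    set A : ℝ := 1 + ∑ r, ‖c r‖ with hA
    have hA0 : 0 < A := by
      have : 0 ≤ ∑ r, ‖c r‖ := Finset.sum_nonneg fun _ _ => norm_nonneg _
      linarith
    obtain ⟨T, hT, c', hc', H1⟩ := h (fun r => (((B + 1) / N : ℝ) : ℂ) * (starRingEnd ℂ) (c r))
      (1 / (2 * A)) (by positivity)
    have h2 : volume {τ : ℝ | (0 ≤ τ ∧ τ ≤ 0 + T) ∧ ∀ r, ‖l r τ - (((B + 1) / N : ℝ) : ℂ) *
        (starRingEnd ℂ) (c r)‖ < 1 / (2 * A)} = 0 := by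
      refine measure_mono_null ?_ (ae_iff.1 hB)
      rintro τ ⟨-, h3⟩
      rw [Set.mem_ofPred_eq, not_le]
      have h4 : ∑ r, c r * l r τ = (((B + 1 : ℝ)) : ℂ) +
          ∑ r, c r * (l r τ - (((B + 1) / N : ℝ) : ℂ) * (starRingEnd ℂ) (c r)) := by
        simp only [mul_sub]
        rw [Finset.sum_sub_distrib]
        have h5 : ∑ r, c r * ((((B + 1) / N : ℝ) : ℂ) * (starRingEnd ℂ) (c r)) =
            ((B + 1 : ℝ) : ℂ) := by
          have h6 : ∀ r, c r * ((((B + 1) / N : ℝ) : ℂ) * (starRingEnd ℂ) (c r)) =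
              (((B + 1) / N * ‖c r‖ ^ 2 : ℝ) : ℂ) := by
            intro r
            rw [mul_left_comm, Complex.mul_conj, Complex.normSq_eq_norm_sq]
            push_cast
            ring
          simp only [h6]
          rw [← Complex.ofReal_sum, ← Finset.mul_sum, div_mul_cancel₀ _ hN.ne']
        rw [h5]
        ring
      have h5 : ‖∑ r, c r * (l r τ - (((B + 1) / N : ℝ) : ℂ) * (starRingEnd ℂ) (c r))‖ ≤ 1 / 2 := by
        refine (norm_sum_le _ _).trans ?_
        have h6 : ∀ r ∈ (Finset.univ : Finset (Fin m)),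
            ‖c r * (l r τ - (((B + 1) / N : ℝ) : ℂ) * (starRingEnd ℂ) (c r))‖ ≤
            ‖c r‖ * (1 / (2 * A)) := by
          intro r _
          rw [norm_mul]
          exact mul_le_mul_of_nonneg_left (h3 r).le (norm_nonneg _)
        refine (Finset.sum_le_sum h6).trans ?_
        rw [← Finset.sum_mul, mul_one_div, div_le_div_iff₀ (by positivity) (by norm_num)]
        linarith
      rw [h4, Complex.add_re, Complex.ofReal_re]
      have h6 := (abs_le.1 ((Complex.abs_re_le_norm _).trans h5)).1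
      linarith
    have h3 := H1 0
    rw [h2] at h3
    have h4 : ENNReal.ofReal c' = 0 := le_antisymm h3 zero_le
    rw [ENNReal.ofReal_eq_zero] at h4
    linarith
  tfae_have 3 → 2 := by
    intro h c hc hsum
    have hcb := norm_cb hb c
    have hsum' : Summable fun p : Nat.Primes => ‖cb c b (p, 0)‖ / (p : ℕ) := by
      refine hsum.congr fun p => ?_
      unfold Pool.Agent.N60.EH.cb
      simp only [hb0]
    have h1 := summable_of_primes hcb hsum'
    refine h c hc (∑' x, ‖cb c b x‖ * wt 1 x) ?_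
    filter_upwards [hae, ae_bl_cb hb c, ae_notMem hcb] with τ h2 h3 h4
    have h5 : ∑ r, c r * l r τ = bl (cb c b) τ := by
      rw [h3]
      exact Finset.sum_congr rfl fun r _ => by rw [h2 r]
    rw [h5, bl_eq hcb h1 h4]
    refine (Complex.re_le_norm _).trans ?_
    unfold FF
    exact tsum_of_norm_bounded h1.hasSum fun x => norm_tm_le _ (by simp) x
  tfae_finish

/-- the convergent case -/
theorem bounded_case {H : Motive} {S : Set Nat.Primes} (hS : Pure H S)
    (h : Summable fun p : Nat.Primes => ‖ntr H S p‖ / (p : ℕ)) :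
    ∃ Φ : ℂ → ℂ, ContinuousOn Φ {s : ℂ | (H.weight : ℝ) / 2 + 1 ≤ s.re} ∧
      (∃ C : ℝ, ∀ s : ℂ, (H.weight : ℝ) / 2 + 1 ≤ s.re → ‖Φ s‖ ≤ C) ∧
      ∀ s : ℂ, (H.weight : ℝ) / 2 + 1 < s.re → Φ s = logLS H S s := by
  have hsum := summable_of_primes (norm_bc hS) (h.congr fun p => by rw [bc_zero])
  have hre : ∀ s : ℂ, (H.weight : ℝ) / 2 + 1 ≤ s.re → 1 ≤ (s - (H.weight : ℂ) / 2).re := by
    intro s hs
    have h3 : ((H.weight : ℂ) / 2) = (((H.weight : ℝ) / 2 : ℝ) : ℂ) := by push_cast; rfl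
    rw [Complex.sub_re, h3, Complex.ofReal_re]
    linarith
  refine ⟨fun s => FF (bc hS) (s - (H.weight : ℂ) / 2), ?_,
    ⟨∑' x, ‖bc hS x‖ * wt 1 x, fun s hs => ?_⟩, fun s hs => ?_⟩
  · exact (FF_continuousOn hsum).comp (by fun_prop) fun s hs => hre s hs
  · unfold FF
    exact tsum_of_norm_bounded hsum.hasSum fun x => norm_tm_le _ (hre s hs) x
  · have h2 := logLS_eq hS (shift_re' hs)
    rw [sub_add_cancel] at h2
    exact h2.symm

end Pool.Agent.N60.EV
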