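import Pool.Agent.N60.EV.Dens
import Pool.Agent.TH339.MP.R1
import Pool.Agent.N60.EV.Defs

/-!
# The L-functions of motives over `ℚ` as exponentials of Dirichlet series
-/

set_option autoImplicit false

namespace Pool.Agent.N60.EV

open Complex MeasureTheory Finset Filter Topology Metric
open Pool.Agent.TH339.MP
open Pool.Agent.W350.Edge (divSet dimH_divSet)
open Pool.Agent.N882.SP (Motive)

lemma exists_enum {n : ℕ} (s : Multiset ℂ) (h : Multiset.card s = n) :
    ∃ α : Fin n → ℂ, s = (Finset.univ : Finset (Fin n)).val.map α := by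
  induction s using Quotient.inductionOn with
  | h L =>
    have h1 : L.length = n := by simpa using h
    subst h1
    refine ⟨L.get, ?_⟩
    rw [Fin.univ_val_map, List.ofFn_get]
    rfl

variable {H : Motive} {S : Set Nat.Primes}

lemma exists_beta (hS : Pure H S) : ∃ β : ℕ → Fin H.rank → ℂ, (∀ p j, ‖β p j‖ ≤ 1) ∧
    (∀ p : Nat.Primes, p ∈ S → ∀ j, β p j = 0) ∧
    ∀ p : Nat.Primes, p ∉ S → H.frob p = (Finset.univ : Finset (Fin H.rank)).val.map
      fun j => β p j * (((p : ℝ) ^ ((H.weight : ℝ) / 2) : ℝ) : ℂ) := by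
  classical
  have h1 : ∀ p : Nat.Primes, p ∉ S → ∃ α : Fin H.rank → ℂ,
      H.frob p = (Finset.univ : Finset (Fin H.rank)).val.map α := fun p hp =>
    exists_enum _ (hS p hp).2
  choose! α hα using h1
  have hpos : ∀ p : Nat.Primes, 0 < (p : ℝ) ^ ((H.weight : ℝ) / 2) := fun p =>
    Real.rpow_pos_of_pos (prime_pos p) _
  refine ⟨fun p j => if h : p.Prime then (if (⟨p, h⟩ : Nat.Primes) ∈ S then 0 else
    α ⟨p, h⟩ j / (((p : ℝ) ^ ((H.weight : ℝ) / 2) : ℝ) : ℂ)) else 0, fun p j => ?_, fun p hp j => ?_,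
    fun p hp => ?_⟩
  · by_cases h : p.Prime
    · simp only [dif_pos h]
      split_ifs with h2
      · simp
      · have h3 : α ⟨p, h⟩ j ∈ H.frob ⟨p, h⟩ := by
          rw [hα _ h2]
          exact Multiset.mem_map_of_mem _ (Finset.mem_univ_val j)
        have h4 := (hS _ h2).1 _ h3
        have h5 := hpos ⟨p, h⟩
        have e : (((⟨p, h⟩ : Nat.Primes) : ℕ) : ℝ) = (p : ℝ) := rfl
        rw [e] at h4 h5
        rw [norm_div, h4, Complex.norm_real, Real.norm_of_nonneg h5.le, div_self h5.ne']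
    · simp only [dif_neg h]
      simp
  · have h2 : (⟨(p : ℕ), p.2⟩ : Nat.Primes) ∈ S := hp
    simp only [dif_pos p.2, if_pos h2]
  · have h2 : (⟨(p : ℕ), p.2⟩ : Nat.Primes) ∉ S := hp
    simp only [dif_pos p.2, if_neg h2]
    rw [hα p hp]
    refine congrArg (fun f => Multiset.map f _) (funext fun j => ?_)
    have h3 : (((p : ℝ) ^ ((H.weight : ℝ) / 2) : ℝ) : ℂ) ≠ 0 :=
      Complex.ofReal_ne_zero.2 (hpos p).ne'
    rw [div_mul_cancel₀ _ h3]
    rfl

/-- the normalised eigenvalues -/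
noncomputable def be (hS : Pure H S) : ℕ → Fin H.rank → ℂ := (exists_beta hS).choose

/-- the coefficients -/
noncomputable def bc (hS : Pure H S) : PP → ℂ := bα (be hS) ∅

lemma be_norm (hS : Pure H S) : ∀ p : ℕ, p.Prime → p ∉ (∅ : Finset ℕ) → ∀ j, ‖be hS p j‖ ≤ 1 :=
  fun p _ _ j => (exists_beta hS).choose_spec.1 p j

lemma norm_bc (hS : Pure H S) (x : PP) : ‖bc hS x‖ ≤ (H.rank : ℝ) / (x.2 + 1 : ℕ) :=
  norm_bα (be_norm hS) x

lemma cpow_shift (H : Motive) (p : Nat.Primes) (s : ℂ) :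
    (((p : ℝ) ^ ((H.weight : ℝ) / 2) : ℝ) : ℂ) * ((p : ℕ) : ℂ) ^ (-(s + (H.weight : ℂ) / 2)) =
      ((p : ℕ) : ℂ) ^ (-s) := by
  have hp : ((p : ℕ) : ℂ) ≠ 0 := by exact_mod_cast p.2.ne_zero
  have e1 : ((((p : ℝ) ^ ((H.weight : ℝ) / 2) : ℝ)) : ℂ) = ((p : ℕ) : ℂ) ^ ((H.weight : ℂ) / 2) := by
    rw [Complex.ofReal_cpow (Nat.cast_nonneg _)]
    push_cast
    rfl
  rw [e1, ← Complex.cpow_add _ _ hp]
  congr 1
  ring

lemma LS_eq (hS : Pure H S) {s : ℂ} (hs : 1 < s.re) :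
    LS H S (s + (H.weight : ℂ) / 2) = Complex.exp (FF (bc hS) s) := by
  classical
  have h1 := hasProd_α (be_norm hS) hs
  unfold bc
  rw [← h1.tprod_eq]
  unfold LS
  refine tprod_congr fun p => ?_
  unfold fα
  rw [if_neg (Finset.notMem_empty _)]
  obtain ⟨-, h2, h3⟩ := (exists_beta hS).choose_spec
  by_cases hp : p ∈ S
  · rw [if_pos hp]
    symm
    refine Finset.prod_eq_one fun j _ => ?_
    have : be hS p j = 0 := h2 p hp j
    rw [this]
    simp
  · rw [if_neg hp, h3 p hp, Multiset.map_map]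
    change ∏ j, _ = _
    refine Finset.prod_congr rfl fun j _ => ?_
    simp only [Function.comp_apply]
    rw [mul_assoc, cpow_shift]
    rfl

lemma logLS_eq (hS : Pure H S) {s : ℂ} (hs : 1 < s.re) :
    logLS H S (s + (H.weight : ℂ) / 2) = FF (bc hS) s := by
  classical
  have h1 : HasSum (lα (be hS) ∅ s) (FF (bα (be hS) ∅) s) :=
    (summable_tm (norm_bα (be_norm hS)) hs).hasSum.prod_fiberwise
      fun p => hasSum_lα (be_norm hS) p hs.le
  unfold bc
  rw [← h1.tsum_eq]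
  unfold logLS
  refine tsum_congr fun p => ?_
  unfold lα
  rw [if_neg (Finset.notMem_empty _)]
  obtain ⟨-, h2, h3⟩ := (exists_beta hS).choose_spec
  by_cases hp : p ∈ S
  · rw [if_pos hp]
    symm
    refine Finset.sum_eq_zero fun j _ => ?_
    have : be hS p j = 0 := h2 p hp j
    rw [this]
    simp
  · rw [if_neg hp, h3 p hp, Multiset.map_map]
    change ∑ j, _ = _
    refine Finset.sum_congr rfl fun j _ => ?_
    simp only [Function.comp_apply]
    rw [mul_assoc, cpow_shift]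
    rfl

lemma bc_zero (hS : Pure H S) (p : Nat.Primes) : bc hS (p, 0) = ntr H S p := by
  classical
  obtain ⟨-, h2, h3⟩ := (exists_beta hS).choose_spec
  unfold bc bα ntr
  rw [if_neg (Finset.notMem_empty _)]
  simp only [zero_add, pow_one, Nat.cast_one, div_one]
  by_cases hp : p ∈ S
  · rw [if_pos hp]
    exact Finset.sum_eq_zero fun j _ => h2 p hp j
  · rw [if_neg hp, h3 p hp]
    have h4 : (((p : ℝ) ^ ((H.weight : ℝ) / 2) : ℝ) : ℂ) ≠ 0 :=
      Complex.ofReal_ne_zero.2 (Real.rpow_pos_of_pos (prime_pos p) _).ne'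
    rw [eq_div_iff h4, Finset.sum_mul]
    rfl

lemma shift_re' {s : ℂ} (hs : (H.weight : ℝ) / 2 + 1 < s.re) : 1 < (s - (H.weight : ℂ) / 2).re := by
  have h3 : ((H.weight : ℂ) / 2) = (((H.weight : ℝ) / 2 : ℝ) : ℂ) := by push_cast; rfl
  rw [Complex.sub_re, h3, Complex.ofReal_re]
  linarith

lemma exp_logLS (hS : Pure H S) {s : ℂ} (hs : (H.weight : ℝ) / 2 + 1 < s.re) :
    Complex.exp (logLS H S s) = LS H S s := by
  have h1 := LS_eq hS (shift_re' hs)
  have h2 := logLS_eq hS (shift_re' hs)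
  rw [sub_add_cancel] at h1 h2
  rw [h1, h2]

lemma edge_eq (H : Motive) (τ : ℝ) : edge H τ = 1 + τ * I + (H.weight : ℂ) / 2 := by
  unfold edge
  push_cast
  ring

lemma logLS_angle (hS : Pure H S) {τ : ℝ} (hτ : τ ∉ divSet (ap (bc hS))) (C : ℝ) :
    Tendsto (logLS H S) (𝓝[ang H τ C] (edge H τ)) (𝓝 (bl (bc hS) τ)) := by
  have h5 := bl_angle (norm_bc hS) hτ C
  have h6 : Tendsto (fun s : ℂ => s - edge H τ) (𝓝[ang H τ C] (edge H τ))
      (𝓝[{z : ℂ | 0 < z.re ∧ ‖z‖ ≤ C * z.re}] 0) := by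
    rw [tendsto_nhdsWithin_iff]
    constructor
    · have h7 : Tendsto (fun s : ℂ => s - edge H τ) (𝓝 (edge H τ)) (𝓝 (edge H τ - edge H τ)) :=
        (continuous_id.sub continuous_const).tendsto _
      rw [sub_self] at h7
      exact h7.mono_left nhdsWithin_le_nhds
    · filter_upwards [self_mem_nhdsWithin] with s hs
      have hre : (s - edge H τ).re = s.re - ((H.weight : ℝ) / 2 + 1) := by
        unfold edge
        simp
      refine ⟨?_, ?_⟩
      · rw [hre]
        linarith [hs.1]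
      · rw [hre]
        exact hs.2
  refine (h5.comp h6).congr' ?_
  filter_upwards [self_mem_nhdsWithin] with s hs
  simp only [Function.comp_apply]
  have e : (1 + τ * I + (s - edge H τ)) = s - (H.weight : ℂ) / 2 := by
    rw [edge_eq]
    ring
  have h2 := logLS_eq hS (shift_re' hs.1)
  rw [sub_add_cancel] at h2
  rw [e, h2]

lemma exists_boundary (hS : Pure H S) : IsBoundary H S (bl (bc hS)) :=
  ⟨divSet (ap (bc hS)), (boundary (norm_bc hS)).2.1, fun _ hτ C => logLS_angle hS hτ C⟩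

lemma edge_re (H : Motive) (τ : ℝ) : (edge H τ).re = (H.weight : ℝ) / 2 + 1 := by
  unfold edge
  simp

lemma ang_neBot (H : Motive) (τ : ℝ) : (𝓝[ang H τ 1] (edge H τ)).NeBot := by
  rw [← mem_closure_iff_nhdsWithin_neBot, mem_closure_iff_seq_limit]
  refine ⟨fun n : ℕ => edge H τ + ((1 / ((n : ℝ) + 1) : ℝ) : ℂ), fun n => ?_, ?_⟩
  · have h3 : (0 : ℝ) < 1 / ((n : ℝ) + 1) := by positivity
    have hre : (edge H τ + ((1 / ((n : ℝ) + 1) : ℝ) : ℂ)).re =
        (H.weight : ℝ) / 2 + 1 + 1 / ((n : ℝ) + 1) := by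
      rw [Complex.add_re, edge_re, Complex.ofReal_re]
    refine ⟨?_, ?_⟩
    · rw [hre]
      linarith
    · rw [hre, add_sub_cancel_left, Complex.norm_real, Real.norm_of_nonneg h3.le]
      linarith
  · have h4 : Tendsto (fun n : ℕ => (1 / ((n : ℝ) + 1) : ℝ)) atTop (𝓝 0) :=
      tendsto_one_div_add_atTop_nhds_zero_nat
    have h5 := ((Complex.continuous_ofReal.tendsto 0).comp h4).const_add (edge H τ)
    rw [Complex.ofReal_zero, add_zero] at h5
    exact h5

lemma volume_of_dimH {Z : Set ℝ} (h : dimH Z = 0) : volume Z = 0 := by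
  have h3 := hausdorffMeasure_of_dimH_lt (s := Z) (d := 1) (by rw [h]; simp)
  rw [NNReal.coe_one, hausdorffMeasure_real] at h3
  exact h3

lemma boundary_unique (hS : Pure H S) {l : ℝ → ℂ} (hl : IsBoundary H S l) :
    ∀ᵐ τ : ℝ, l τ = bl (bc hS) τ := by
  obtain ⟨Z, hZ, h1⟩ := hl
  have h2 : ∀ᵐ τ : ℝ, τ ∉ Z := measure_eq_zero_iff_ae_notMem.1 (volume_of_dimH hZ)
  filter_upwards [h2, ae_notMem (norm_bc hS)] with τ h3 h4
  have := ang_neBot H τ
  exact tendsto_nhds_unique (h1 τ h3 1) (logLS_angle hS h4 1)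

end Pool.Agent.N60.EV
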