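import Pool.Agent.N60.EV.Ker

/-!
# The measure of the good points in a long window
-/

set_option autoImplicit false

namespace Pool.Agent.N60.EV

open Complex MeasureTheory Finset Filter Topology
open Pool.Agent.TH339.MP
open Pool.Agent.W350.Edge (divSet dimH_divSet)
open Pool.Agent.Helper352 (ker_nonneg ker_le_one ker_continuous ker_le_of_far ker_lt_one
  ker_pow_expand)

/-- the kernel is concentrated -/
lemma exists_n (P : Finset Nat.Primes) {ε : ℝ} (hε : 0 < ε) (hε2 : ε ≤ 1 / 2) :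
    ∃ n : ℕ, Helper352.ker ε ^ n ≤ m0 P n / 8 := by
  set ρ : ℝ := Helper352.ker ε with hρ
  have hρ1 : ρ < 1 := ker_lt_one hε hε2
  have hρ0 : 0 ≤ ρ := ker_nonneg ε
  set r := P.card with hr
  have hlim : Tendsto (fun N : ℕ => (2 * N : ℝ) ^ r * ρ ^ N) atTop (𝓝 0) := by
    have := tendsto_pow_const_mul_const_pow_of_abs_lt_one r (r := ρ)
      (by rw [abs_of_nonneg hρ0]; exact hρ1)
    have h2 := this.const_mul ((2 : ℝ) ^ r)
    rw [mul_zero] at h2
    refine h2.congr ?_
    intro N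
    rw [mul_pow]; ring
  obtain ⟨N, hN, hN1⟩ := ((hlim.eventually (ge_mem_nhds (by norm_num : (0 : ℝ) < 1 / 8))).and
    (eventually_gt_atTop 0)).exists
  refine ⟨N, ?_⟩
  have h1 := Nat.four_pow_le_two_mul_self_mul_centralBinom N hN1
  have h2 : (4 : ℝ) ^ N ≤ (2 * N) * ((2 * N).choose N : ℝ) := by
    have := h1
    rw [Nat.centralBinom_eq_two_mul_choose] at this
    exact_mod_cast this
  have hN' : (0 : ℝ) < 2 * N := by positivity
  have h3 : 1 ≤ (2 * N : ℝ) * (((2 * N).choose N : ℝ) / 4 ^ N) := by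
    rw [← mul_div_assoc, le_div_iff₀ (by positivity), one_mul]
    exact h2
  have h4 : (1 : ℝ) ≤ (2 * N : ℝ) ^ r * m0 P N := by
    unfold m0
    rw [← mul_pow]
    exact one_le_pow₀ h3
  have h5 : (0 : ℝ) < (2 * N : ℝ) ^ r := by positivity
  have h6 : (2 * N : ℝ) ^ r * ρ ^ N ≤ (2 * N : ℝ) ^ r * (m0 P N / 8) := by
    refine hN.trans ?_
    linarith
  exact le_of_mul_le_mul_left h6 h5

lemma hasMean_KK (P : Finset Nat.Primes) (u : Nat.Primes → ℝ) (n : ℕ) :
    HasMean (fun τ => ((KK P u n τ : ℝ) : ℂ)) (m0 P n : ℂ) := by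
  have h := mean_KK_ee (P := P) u n (d := 0) (fun p _ => rfl)
  rw [if_pos rfl] at h
  refine h.congr fun τ => ?_
  rw [lin_zero, ee_zero_left, mul_one]

/-- real version of the mean -/
lemma HasMean.real {f : ℝ → ℝ} {μ : ℝ} (h : HasMean (fun u => ((f u : ℝ) : ℂ)) (μ : ℂ)) {ε : ℝ}
    (hε : 0 < ε) : ∃ T0 : ℝ, 0 < T0 ∧ ∀ T : ℝ, T0 ≤ T → ∀ a : ℝ,
      |(∫ u in a..(a + T), f u) - T * μ| ≤ ε * T := by
  obtain ⟨T0, h1, h2⟩ := h.2 ε hε
  refine ⟨T0, h1, fun T hT a => ?_⟩
  have h3 := h2 T hT a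
  have h4 : (∫ u in a..(a + T), ((f u : ℝ) : ℂ)) - T * (μ : ℂ) =
      (((∫ u in a..(a + T), f u) - T * μ : ℝ) : ℂ) := by
    rw [intervalIntegral.integral_ofReal]
    push_cast
    rfl
  rw [h4, Complex.norm_real, Real.norm_eq_abs] at h3
  exact h3

lemma lint_window {g : ℝ → ENNReal} {B : ENNReal} (h : ∀ t : ℝ,
    ∫⁻ u in Set.Icc t (t + 1), g u ≤ B) (a : ℝ) (N : ℕ) :
    ∫⁻ u in Set.Icc a (a + N), g u ≤ N * B := by
  induction N with
  | zero =>
    simp
  | succ N ih =>
    have h1 : Set.Icc a (a + ((N + 1 : ℕ) : ℝ)) ⊆ Set.Icc a (a + N) ∪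
        Set.Icc (a + N) (a + N + 1) := by
      intro x hx
      push_cast at hx
      rcases le_total x (a + N) with h2 | h2
      · exact Or.inl ⟨hx.1, h2⟩
      · exact Or.inr ⟨h2, by linarith [hx.2]⟩
    refine (lintegral_mono_set h1).trans ((lintegral_union_le _ _ _).trans ?_)
    refine (add_le_add ih (h _)).trans (le_of_eq ?_)
    push_cast
    ring

/-- the coefficients at the primes outside `P` -/
noncomputable def off (P : Finset Nat.Primes) (b : PP → ℂ) (x : PP) : ℂ := by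
  classical exact if x.1 ∈ P then 0 else b x

lemma norm_off {b : PP → ℂ} {M : ℝ} (hb : ∀ x, ‖b x‖ ≤ M / (x.2 + 1 : ℕ)) (P : Finset Nat.Primes)
    (x : PP) : ‖off P b x‖ ≤ M / (x.2 + 1 : ℕ) := by
  unfold off
  split_ifs
  · rw [norm_zero]
    exact (norm_nonneg _).trans (hb x)
  · exact hb x

variable {m : ℕ} {b : Fin m → PP → ℂ} {M : Fin m → ℝ}

/-- **The measure of the good points.** -/
theorem good_measure (hb : ∀ r x, ‖b r x‖ ≤ M r / (x.2 + 1 : ℕ)) (P : Finset Nat.Primes)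
    (u : Nat.Primes → ℝ) {ε η v : ℝ} (hε : 0 < ε) (hε2 : ε ≤ 1 / 2) (hη : 0 < η) (hv0 : 0 ≤ v)
    (hV : ∀ r, ∀ A : Finset PP, (∀ x ∈ A, x.1 ∉ P) →
      ∑ x ∈ A, ‖b r x * (wt 1 x : ℂ)‖ ^ 2 ≤ v) (hv : (m : ℝ) * (4 / η ^ 2 * v) ≤ 1 / 8) :
    ∃ T : ℝ, 0 < T ∧ ∃ c : ℝ, 0 < c ∧ ∀ a : ℝ, ENNReal.ofReal c ≤
      volume {τ : ℝ | (a ≤ τ ∧ τ ≤ a + T) ∧
        (∀ p ∈ P, ∃ k : ℤ, |(τ - u p) * Real.log (p : ℕ) / (2 * Real.pi) - k| < ε) ∧
        ∀ r, ‖bl (off P (b r)) τ‖ < η} := by
  classical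
  obtain ⟨n, hn⟩ := exists_n P hε hε2
  set μ := m0 P n with hμ
  have hμ0 : 0 < μ := m0_pos P n
  have hoff := fun r => norm_off (hb r) P
  -- the length of the partial sums
  obtain ⟨X, hX2, hX⟩ : ∃ X : ℕ, 2 ≤ X ∧
      ∑ r, 4 / η ^ 2 * (64800 * M r ^ 2 / Real.log X) ≤ μ / 8 := by
    have h1 : Tendsto (fun X : ℕ => ∑ r, 4 / η ^ 2 * (64800 * M r ^ 2 / Real.log X)) atTop
        (𝓝 (∑ _r : Fin m, 4 / η ^ 2 * 0)) := by
      refine tendsto_finsetSum _ fun r _ => Tendsto.const_mul _ ?_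
      exact tendsto_const_nhds.div_atTop (Real.tendsto_log_atTop.comp tendsto_natCast_atTop_atTop)
    simp only [mul_zero, Finset.sum_const_zero] at h1
    obtain ⟨X, h2, h3⟩ := ((h1.eventually (ge_mem_nhds (by positivity : (0 : ℝ) < μ / 8))).and
      (eventually_ge_atTop 2)).exists
    exact ⟨X, h3, h2⟩
  -- the partial sums
  set A : Finset PP := (TX X).filter fun x => x.1 ∉ P with hA
  have hAP : ∀ x ∈ A, x.1 ∉ P := fun x hx => (Finset.mem_filter.1 hx).2
  have hPS : ∀ r τ, PS (off P (b r)) X τ = ∑ x ∈ A, (b r x * (wt 1 x : ℂ)) * ee (fr x) τ := by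
    intro r τ
    unfold PS
    rw [hA, Finset.sum_filter]
    refine Finset.sum_congr rfl fun x _ => ?_
    unfold off
    by_cases h : x.1 ∈ P
    · rw [if_pos h, if_neg (not_not.2 h)]
      ring
    · rw [if_neg h, if_pos h]
  set f : Fin m → ℝ → ℝ := fun r τ => KK P u n τ * ‖PS (off P (b r)) X τ‖ ^ 2 with hf
  have hfm : ∀ r, HasMean (fun τ => ((f r τ : ℝ) : ℂ))
      ((μ * ∑ x ∈ A, ‖b r x * (wt 1 x : ℂ)‖ ^ 2 : ℝ) : ℂ) := by
    intro r
    refine (mean_KK_sq u n A hAP (fun x => b r x * (wt 1 x : ℂ))).congr fun τ => ?_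
    simp only [hf]
    rw [hPS]
  obtain ⟨T1, hT1, h1⟩ := (hasMean_KK P u n).real (ε := μ / 8) (by positivity)
  set e : ℝ := η ^ 2 / 4 * (μ / (8 * ((m : ℝ) + 1))) with he
  have he0 : 0 < e := by positivity
  choose T2 hT2 h2 using fun r => (hfm r).real he0
  obtain ⟨N, hN⟩ := exists_nat_ge (max (max T1 1) (∑ r, T2 r))
  have hNT1 : T1 ≤ N := ((le_max_left _ _).trans (le_max_left _ _)).trans hN
  have hN1 : (1 : ℝ) ≤ N := ((le_max_right _ _).trans (le_max_left _ _)).trans hN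
  have hNT2 : ∀ r, T2 r ≤ N := fun r =>
    (Finset.single_le_sum (f := T2) (fun r _ => (hT2 r).le) (Finset.mem_univ r)).trans
      ((le_max_right _ _).trans hN)
  refine ⟨N, by linarith, N * μ / 4, by positivity, fun a => ?_⟩
  set G : Set ℝ := {τ : ℝ | (a ≤ τ ∧ τ ≤ a + N) ∧
        (∀ p ∈ P, ∃ k : ℤ, |(τ - u p) * Real.log (p : ℕ) / (2 * Real.pi) - k| < ε) ∧
        ∀ r, ‖bl (off P (b r)) τ‖ < η} with hG
  set W : Set ℝ := Set.Icc a (a + N) with hW
  set h : ℝ → ENNReal := fun τ => ENNReal.ofReal (Helper352.ker ε ^ n) +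
    (∑ r, ENNReal.ofReal (4 / η ^ 2 * f r τ) +
      ∑ r, ENNReal.ofReal (4 / η ^ 2) *
        ENNReal.ofReal (‖bl (off P (b r)) τ - PS (off P (b r)) X τ‖ ^ 2)) with hh
  have hfc : ∀ r, Continuous (f r) := fun r =>
    KK_continuous.mul ((continuous_PS _ _).norm.pow 2)
  have hf0 : ∀ r τ, 0 ≤ f r τ := fun r τ => mul_nonneg (KK_nonneg τ) (by positivity)
  have hmeas2 : ∀ r, AEMeasurable (fun τ => ENNReal.ofReal
      (‖bl (off P (b r)) τ - PS (off P (b r)) X τ‖ ^ 2)) (volume.restrict W) := fun r =>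
    (ENNReal.measurable_ofReal.comp_aemeasurable
      ((((boundary (hoff r)).1.sub (continuous_PS _ _).aemeasurable).norm).pow_const 2)).restrict
  have hmeas1 : ∀ r, AEMeasurable (fun τ => ENNReal.ofReal (4 / η ^ 2 * f r τ))
      (volume.restrict W) := fun r =>
    (ENNReal.continuous_ofReal.comp (continuous_const.mul (hfc r))).aemeasurable
  have hmeas : AEMeasurable h (volume.restrict W) :=
    aemeasurable_const.add ((Finset.aemeasurable_fun_sum _ fun r _ => hmeas1 r).add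
      (Finset.aemeasurable_fun_sum _ fun r _ => (hmeas2 r).const_mul _))
  -- the pointwise inequality
  have hpt : ∀ τ ∈ W, ENNReal.ofReal (KK P u n τ) ≤ h τ + G.indicator 1 τ := by
    intro τ hτ
    by_cases hτG : τ ∈ G
    · rw [Set.indicator_of_mem hτG, Pi.one_apply]
      refine le_add_left ?_
      exact ENNReal.ofReal_le_one.2 (KK_le_one τ)
    · refine le_add_right ?_
      have hcases : (∃ p ∈ P, ∀ k : ℤ, ε ≤ |(τ - u p) * Real.log (p : ℕ) / (2 * Real.pi) - k|) ∨
          ∃ r, η ≤ ‖bl (off P (b r)) τ‖ := by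
        by_contra hcon
        rw [not_or] at hcon
        push Not at hcon
        exact hτG ⟨hτ, hcon.1, hcon.2⟩
      rcases hcases with ⟨p, hp, hk⟩ | ⟨r, hr⟩
      · exact le_add_right (ENNReal.ofReal_le_ofReal (KK_far hε hε2 hp hk))
      · refine le_add_left ?_
        rcases le_or_gt (η / 2) ‖PS (off P (b r)) X τ‖ with h3 | h3
        · refine le_add_right ?_
          refine le_trans ?_ (Finset.single_le_sum (f := fun r =>
            ENNReal.ofReal (4 / η ^ 2 * f r τ)) (fun _ _ => zero_le) (Finset.mem_univ r))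
          refine ENNReal.ofReal_le_ofReal ?_
          simp only [hf]
          have h4 : 1 ≤ 4 / η ^ 2 * ‖PS (off P (b r)) X τ‖ ^ 2 := by
            have h5 : (η / 2) ^ 2 ≤ ‖PS (off P (b r)) X τ‖ ^ 2 :=
              pow_le_pow_left₀ (by positivity) h3 2
            rw [div_mul_eq_mul_div, le_div_iff₀ (by positivity)]
            nlinarith
          nlinarith [KK_nonneg (P := P) (u := u) (n := n) τ]
        · refine le_add_left ?_
          refine le_trans ?_ (Finset.single_le_sum (f := fun r => ENNReal.ofReal (4 / η ^ 2) *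
            ENNReal.ofReal (‖bl (off P (b r)) τ - PS (off P (b r)) X τ‖ ^ 2))
              (fun _ _ => zero_le) (Finset.mem_univ r))
          rw [← ENNReal.ofReal_mul (by positivity)]
          refine ENNReal.ofReal_le_ofReal ((KK_le_one τ).trans ?_)
          have h5 : η / 2 ≤ ‖bl (off P (b r)) τ - PS (off P (b r)) X τ‖ := by
            have := norm_sub_norm_le (bl (off P (b r)) τ) (PS (off P (b r)) X τ)
            linarith
          have h6 : (η / 2) ^ 2 ≤ ‖bl (off P (b r)) τ - PS (off P (b r)) X τ‖ ^ 2 :=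
            pow_le_pow_left₀ (by positivity) h5 2
          rw [div_mul_eq_mul_div, le_div_iff₀ (by positivity)]
          nlinarith
  -- integration
  have hint : ENNReal.ofReal (∫ τ in a..(a + N), KK P u n τ) ≤
      (∫⁻ τ in W, h τ) + volume G := by
    have h3 : ENNReal.ofReal (∫ τ in a..(a + N), KK P u n τ) =
        ∫⁻ τ in W, ENNReal.ofReal (KK P u n τ) := by
      rw [intervalIntegral.integral_of_le (by linarith), ← integral_Icc_eq_integral_Ioc]
      exact ofReal_integral_eq_lintegral_ofReal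
        (KK_continuous.continuousOn.integrableOn_compact isCompact_Icc)
        (Eventually.of_forall fun τ => KK_nonneg τ)
    rw [h3]
    calc ∫⁻ τ in W, ENNReal.ofReal (KK P u n τ) ≤ ∫⁻ τ in W, (h τ + G.indicator 1 τ) :=
          setLIntegral_mono' measurableSet_Icc hpt
      _ = (∫⁻ τ in W, h τ) + ∫⁻ τ in W, G.indicator 1 τ := lintegral_add_left' hmeas _
      _ ≤ (∫⁻ τ in W, h τ) + volume G := by
          refine add_le_add le_rfl ?_
          refine (lintegral_indicator_one_le _).trans ?_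
          exact Measure.restrict_apply_le _ _
  have hNr : (0 : ℝ) < N := by linarith
  have hvolW : volume W = ENNReal.ofReal N := by
    rw [hW, Real.volume_Icc]
    congr 1
    ring
  have hbound : ∫⁻ τ in W, h τ ≤ ENNReal.ofReal (N * μ / 2) := by
    have i1 : ∫⁻ _τ in W, ENNReal.ofReal (Helper352.ker ε ^ n) ≤ ENNReal.ofReal (N * μ / 8) := by
      rw [setLIntegral_const, hvolW, ← ENNReal.ofReal_mul (pow_nonneg (ker_nonneg ε) _)]
      refine ENNReal.ofReal_le_ofReal ?_
      nlinarith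
    have i2 : ∫⁻ τ in W, ∑ r, ENNReal.ofReal (4 / η ^ 2 * f r τ) ≤
        ENNReal.ofReal (N * μ / 4) := by
      rw [lintegral_finsetSum' _ fun r _ => hmeas1 r]
      have i3 : ∀ r, ∫⁻ τ in W, ENNReal.ofReal (4 / η ^ 2 * f r τ) ≤
          ENNReal.ofReal (4 / η ^ 2 * (N * (μ * v) + e * N)) := by
        intro r
        have i4 : ∫⁻ τ in W, ENNReal.ofReal (4 / η ^ 2 * f r τ) =
            ENNReal.ofReal (4 / η ^ 2 * ∫ τ in a..(a + N), f r τ) := by
          rw [← intervalIntegral.integral_const_mul,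
            intervalIntegral.integral_of_le (by linarith), ← integral_Icc_eq_integral_Ioc]
          exact (ofReal_integral_eq_lintegral_ofReal
            ((continuous_const.mul (hfc r)).continuousOn.integrableOn_compact isCompact_Icc)
            (Eventually.of_forall fun τ => mul_nonneg (by positivity) (hf0 r τ))).symm
        rw [i4]
        refine ENNReal.ofReal_le_ofReal (mul_le_mul_of_nonneg_left ?_ (by positivity))
        have i5 := h2 r N (hNT2 r) a
        have i6 := hV r A hAP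
        have i7 : μ * ∑ x ∈ A, ‖b r x * (wt 1 x : ℂ)‖ ^ 2 ≤ μ * v :=
          mul_le_mul_of_nonneg_left i6 hμ0.le
        have i8 := (abs_le.1 i5).2
        have i9 := mul_le_mul_of_nonneg_left i7 hNr.le
        linarith
      refine (Finset.sum_le_sum fun r _ => i3 r).trans ?_
      rw [Finset.sum_const, Finset.card_univ, Fintype.card_fin, nsmul_eq_mul,
        ← ENNReal.ofReal_natCast, ← ENNReal.ofReal_mul (Nat.cast_nonneg _)]
      refine ENNReal.ofReal_le_ofReal ?_
      have j1 : (m : ℝ) * (4 / η ^ 2 * (N * (μ * v) + e * N)) =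
          N * (μ * ((m : ℝ) * (4 / η ^ 2 * v))) + N * ((m : ℝ) * (4 / η ^ 2 * e)) := by ring
      have j2 : (m : ℝ) * (4 / η ^ 2 * e) ≤ μ / 8 := by
        have j3 : 4 / η ^ 2 * e = μ / (8 * ((m : ℝ) + 1)) := by
          rw [he]
          field_simp
        rw [j3, ← mul_div_assoc, div_le_div_iff₀ (by positivity) (by norm_num)]
        nlinarith
      have j3 : μ * ((m : ℝ) * (4 / η ^ 2 * v)) ≤ μ * (1 / 8) :=
        mul_le_mul_of_nonneg_left hv hμ0.le
      rw [j1]
      nlinarith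
    have i3 : ∫⁻ τ in W, ∑ r, ENNReal.ofReal (4 / η ^ 2) *
        ENNReal.ofReal (‖bl (off P (b r)) τ - PS (off P (b r)) X τ‖ ^ 2) ≤
        ENNReal.ofReal (N * μ / 8) := by
      rw [lintegral_finsetSum' _ fun r _ => (hmeas2 r).const_mul _]
      have i4 : ∀ r, ∫⁻ τ in W, ENNReal.ofReal (4 / η ^ 2) *
          ENNReal.ofReal (‖bl (off P (b r)) τ - PS (off P (b r)) X τ‖ ^ 2) ≤
          ENNReal.ofReal (N * (4 / η ^ 2 * (64800 * M r ^ 2 / Real.log X))) := by
        intro r
        rw [lintegral_const_mul'' _ (hmeas2 r)]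
        have i5 := lint_window (fun t => (boundary (hoff r)).2.2 X hX2 t) a N
        refine (mul_le_mul_right i5 _).trans (le_of_eq ?_)
        rw [← ENNReal.ofReal_natCast, ← ENNReal.ofReal_mul (Nat.cast_nonneg _),
          ← ENNReal.ofReal_mul (by positivity)]
        congr 1
        ring
      refine (Finset.sum_le_sum fun r _ => i4 r).trans ?_
      have hlog : 0 < Real.log X := Real.log_pos (by exact_mod_cast hX2)
      rw [← ENNReal.ofReal_sum_of_nonneg fun r _ => by positivity]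
      refine ENNReal.ofReal_le_ofReal ?_
      rw [← Finset.mul_sum]
      nlinarith
    have i0 : ∫⁻ τ in W, h τ = (∫⁻ _τ in W, ENNReal.ofReal (Helper352.ker ε ^ n)) +
        ((∫⁻ τ in W, ∑ r, ENNReal.ofReal (4 / η ^ 2 * f r τ)) +
          ∫⁻ τ in W, ∑ r, ENNReal.ofReal (4 / η ^ 2) *
            ENNReal.ofReal (‖bl (off P (b r)) τ - PS (off P (b r)) X τ‖ ^ 2)) := by
      rw [hh, lintegral_add_left' aemeasurable_const,
        lintegral_add_left' (Finset.aemeasurable_fun_sum _ fun r _ => hmeas1 r)]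
    rw [i0]
    refine (add_le_add i1 (add_le_add i2 i3)).trans (le_of_eq ?_)
    rw [← ENNReal.ofReal_add (by positivity) (by positivity),
      ← ENNReal.ofReal_add (by positivity) (by positivity)]
    congr 1
    ring
  have hK : (N : ℝ) * μ * (7 / 8) ≤ ∫ τ in a..(a + N), KK P u n τ := by
    have := (abs_le.1 (h1 N hNT1 a)).1
    linarith
  have hfin : ENNReal.ofReal (N * μ * (7 / 8)) ≤ ENNReal.ofReal (N * μ / 2) + volume G :=
    (ENNReal.ofReal_le_ofReal hK).trans (hint.trans (add_le_add hbound le_rfl))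
  have h7 : ENNReal.ofReal (N * μ * (7 / 8)) - ENNReal.ofReal (N * μ / 2) ≤ volume G :=
    tsub_le_iff_left.2 hfin
  rw [← ENNReal.ofReal_sub _ (by positivity)] at h7
  refine le_trans (ENNReal.ofReal_le_ofReal ?_) h7
  have : 0 < N * μ := by positivity
  linarith

end Pool.Agent.N60.EV
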